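import Mathlib
import Pool.Agent.H922R2.EL.Defs

set_option autoImplicit false
set_option linter.unusedSectionVars false

/-!
Abstract calculus of leading forms at a divisor, and the consequences of a Weierstrass equation.
-/

namespace Pool.Agent.H938R2.EL2

open Pool.Agent.H922R2 (IsDer)
open Pool.Agent.H922R2.EL

/-- leading forms: `LD w g z` means that `z` has order at least `w` with coefficient `g` at `w` -/
structure GD (L K : Type*) [Field L] [Field K] where
  LD : ℚ → K → L → Prop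
  D : L → L
  hD : IsDer D
  d : K → K
  hd : IsDer d
  p : K
  a : ℚ
  b : ℚ
  ha : 0 < a
  add : ∀ {w g g' z z'}, LD w g z → LD w g' z' → LD w (g + g') (z + z')
  mul : ∀ {w w' g g' z z'}, LD w g z → LD w' g' z' → LD (w + w') (g * g') (z * z')
  int : ∀ n : ℤ, LD 0 (n : K) (n : L)
  zero : ∀ w, LD w 0 0
  weak : ∀ {w w' g z}, LD w g z → w' < w → LD w' 0 z
  ex : ∀ z, z ≠ 0 → ∃ w g, g ≠ 0 ∧ LD w g z
  uniq : ∀ {w g g' z}, LD w g z → LD w g' z → g = g'
  der : ∀ {w : ℚ} {g : K} {z : L}, LD w g z → LD (w + b) ((a : K) * p * d g + (w : K) * d p * g) (D z)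
  ker : ∀ {w : ℚ} {g : K}, g ≠ 0 → (a : K) * p * d g + (w : K) * d p * g = 0 →
    ∃ (m : ℤ) (c : L), w = -(m * a) ∧ D c = 0 ∧ LD w g c

variable {L K : Type*} [Field L] [Field K] (S : GD L K)

theorem GD.one : S.LD 0 1 1 := by
  have := S.int 1
  simpa using this

theorem GD.neg {w : ℚ} {g : K} {z : L} (h : S.LD w g z) : S.LD w (-g) (-z) := by
  have := S.mul (S.int (-1)) h
  simpa using this

theorem GD.sub {w : ℚ} {g g' : K} {z z' : L} (h : S.LD w g z) (h' : S.LD w g' z') : S.LD w (g - g') (z - z') := by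
  rw [sub_eq_add_neg, sub_eq_add_neg]; exact S.add h (S.neg h')

theorem GD.lt_of {w w' : ℚ} {g' : K} {z : L} (h : S.LD w 0 z) (hg : g' ≠ 0) (h' : S.LD w' g' z) : w < w' := by
  rcases lt_trichotomy w w' with h1 | h1 | h1
  · exact h1
  · subst h1; exact absurd (S.uniq h' h) hg
  · exact absurd (S.uniq h' (S.weak h h1)) hg

theorem GD.eq_of {w w' : ℚ} {g g' : K} {z : L} (hg : g ≠ 0) (h : S.LD w g z) (hg' : g' ≠ 0)
    (h' : S.LD w' g' z) : w = w' ∧ g = g' := by
  rcases lt_trichotomy w w' with h1 | h1 | h1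
  · exact absurd (S.uniq h (S.weak h' h1)) hg
  · subst h1; exact ⟨rfl, S.uniq h h'⟩
  · exact absurd (S.uniq h' (S.weak h h1)) hg'

/-- leading forms of constants -/
theorem GD.cst {w : ℚ} {g : K} {c : L} (hc : S.D c = 0) (h : S.LD w g c) :
    (S.a : K) * S.p * S.d g + (w : K) * S.d S.p * g = 0 := by
  have h1 := S.der h
  rw [hc] at h1
  exact S.uniq h1 (S.zero _)

theorem GD.cst_w {w : ℚ} {g : K} {c : L} (hc : S.D c = 0) (h : S.LD w g c) (hg : g ≠ 0) :
    ∃ m : ℤ, w = -(m * S.a) := by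
  obtain ⟨m, _, hm, _⟩ := S.ker hg (S.cst hc h)
  exact ⟨m, hm⟩

/-- approximation by constants -/
theorem GD.approx (X : L) (hX : S.D X ≠ 0) :
    ∃ x1, S.D x1 = 0 ∧ ∃ w g, g ≠ 0 ∧ S.LD w g (X - x1) ∧
      (S.a : K) * S.p * S.d g + (w : K) * S.d S.p * g ≠ 0 := by
  by_contra hcon
  push Not at hcon
  have hne : ∀ x1, S.D x1 = 0 → S.D (X - x1) = S.D X ∧ X - x1 ≠ 0 := by
    intro x1 h1
    have h2 : S.D (X - x1) = S.D X := by rw [der_sub S.hD, h1, sub_zero]
    refine ⟨h2, ?_⟩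
    intro h0
    rw [h0, S.hD.zero] at h2
    exact hX h2.symm
  obtain ⟨δ, g0, hg0, hδ⟩ := S.ex _ hX
  obtain ⟨w0, γ0, hγ0, hw0⟩ := S.ex (X - 0) (hne 0 S.hD.zero).2
  have claim : ∀ n : ℕ, ∃ x1, S.D x1 = 0 ∧ ∃ w g, g ≠ 0 ∧ S.LD w g (X - x1) ∧ w0 + n * S.a ≤ w := by
    intro n
    induction n with
    | zero => exact ⟨0, S.hD.zero, w0, γ0, hγ0, hw0, by simp⟩
    | succ n ih =>
      obtain ⟨x1, h1, w, g, hg, h2, h3⟩ := ih
      obtain ⟨m, c, hm, hc, hcl⟩ := S.ker hg (hcon x1 h1 w g hg h2)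
      have hx2 : S.D (x1 + c) = 0 := by rw [S.hD.add, h1, hc, add_zero]
      have h4 : S.LD w 0 (X - (x1 + c)) := by
        have := S.sub h2 hcl
        rw [sub_self] at this
        rwa [← sub_sub]
      obtain ⟨w', g', hg', h5⟩ := S.ex _ (hne _ hx2).2
      have hlt := S.lt_of h4 hg' h5
      obtain ⟨m', _, hm', _⟩ := S.ker hg' (hcon _ hx2 w' g' hg' h5)
      refine ⟨x1 + c, hx2, w', g', hg', h5, ?_⟩
      have ha := S.ha
      rw [hm, hm'] at hlt
      have h6 : (m' : ℚ) < m := by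
        by_contra h7
        push Not at h7
        have : (m : ℚ) * S.a ≤ m' * S.a := mul_le_mul_of_nonneg_right h7 ha.le
        linarith
      have h7 : m' + 1 ≤ m := by
        have : m' < m := by exact_mod_cast h6
        omega
      have h8 : (m' : ℚ) + 1 ≤ m := by exact_mod_cast h7
      have h9 : ((m' : ℚ) + 1) * S.a ≤ m * S.a := mul_le_mul_of_nonneg_right h8 ha.le
      rw [hm']
      rw [hm] at h3
      push_cast
      linarith
  obtain ⟨n, hn⟩ := exists_nat_gt ((δ - S.b - w0) / S.a)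
  obtain ⟨x1, h1, w, g, hg, h2, h3⟩ := claim n
  have h4 := S.der h2
  rw [hcon x1 h1 w g hg h2, (hne x1 h1).1] at h4
  have h5 := S.lt_of h4 hg0 hδ
  rw [div_lt_iff₀ S.ha] at hn
  linarith

/-- a simultaneous leading level -/
theorem GD.level (x : ℚ) (c2 c4 c6 : L) : ∃ (M : ℚ) (A3 A2 A1 A0 : K),
    S.LD (M - 3 * x) A3 1 ∧ S.LD (M - 2 * x) A2 c2 ∧ S.LD (M - x) A1 c4 ∧ S.LD M A0 c6 ∧
    ¬ (A3 = 0 ∧ A2 = 0 ∧ A1 = 0 ∧ A0 = 0) := by
  classical
  -- the level of one coefficient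
  have key : ∀ (c : L) (s T : ℚ), ∃ t : ℚ, t ≤ T ∧ (∀ M ≤ t, ∃ A, S.LD (M - s) A c ∧
      (M = t → t = T ∨ A ≠ 0)) := by
    intro c s T
    by_cases hc : c = 0
    · subst hc
      exact ⟨T, le_rfl, fun M _ => ⟨0, S.zero _, fun _ => Or.inl rfl⟩⟩
    · obtain ⟨w, g, hg, h⟩ := S.ex c hc
      by_cases hT : T < w + s
      · exact ⟨T, le_rfl, fun M hM => ⟨0, S.weak h (by linarith), fun _ => Or.inl rfl⟩⟩
      · push Not at hT
        refine ⟨w + s, hT, fun M hM => ?_⟩
        rcases hM.lt_or_eq with h1 | h1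
        · exact ⟨0, S.weak h (by linarith), fun h2 => absurd h2 h1.ne⟩
        · exact ⟨g, by rw [h1, add_sub_cancel_right]; exact h, fun _ => Or.inr hg⟩
  obtain ⟨t2, ht2, h2⟩ := key c2 (2 * x) (3 * x)
  obtain ⟨t1, ht1, h1⟩ := key c4 x (3 * x)
  obtain ⟨t0, ht0, h0⟩ := key c6 0 (3 * x)
  set M := min t2 (min t1 t0) with hM
  have hM2 : M ≤ t2 := min_le_left _ _
  have hM1 : M ≤ t1 := (min_le_right _ _).trans (min_le_left _ _)
  have hM0 : M ≤ t0 := (min_le_right _ _).trans (min_le_right _ _)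
  obtain ⟨A2, a2, b2⟩ := h2 M hM2
  obtain ⟨A1, a1, b1⟩ := h1 M hM1
  obtain ⟨A0, a0, b0⟩ := h0 M hM0
  rw [sub_zero] at a0
  have h3 : ∃ A3, S.LD (M - 3 * x) A3 1 ∧ (M = 3 * x → A3 ≠ 0) := by
    rcases (hM2.trans ht2).lt_or_eq with h | h
    · exact ⟨0, S.weak S.one (by linarith), fun h' => absurd h' h.ne⟩
    · exact ⟨1, by rw [h, sub_self]; exact S.one, fun _ => one_ne_zero⟩
  obtain ⟨A3, a3, b3⟩ := h3
  refine ⟨M, A3, A2, A1, A0, a3, a2, a1, a0, ?_⟩
  rintro ⟨e3, e2, e1, e0⟩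
  have hlt : M ≠ 3 * x := fun h => b3 h e3
  have hcase : M = t2 ∨ M = t1 ∨ M = t0 := by
    rcases min_choice t2 (min t1 t0) with h | h
    · exact Or.inl h
    · right
      rcases min_choice t1 t0 with h' | h'
      · left; rw [hM, h, h']
      · right; rw [hM, h, h']
  rcases hcase with h | h | h
  · rcases b2 h with h' | h'
    · exact hlt (h.trans h')
    · exact h' e2
  · rcases b1 h with h' | h'
    · exact hlt (h.trans h')
    · exact h' e1
  · rcases b0 h with h' | h'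
    · exact hlt (h.trans h')
    · exact h' e0

/-- consequences of the Weierstrass equation -/
theorem GD.main [CharZero L] [CharZero K] (X Y F α β : L) (hXY : Y ^ 2 = X ^ 3 + α * X + β)
    (hα : S.D α = 0) (hβ : S.D β = 0) (hX : S.D X = 2 * Y * F) (hX0 : S.D X ≠ 0)
    (f φ : ℚ) (P : K) (hP : P ≠ 0) (hF : S.LD f P F) (hf : f = S.b + φ)
    (h4 : ∀ n : ℤ, 4 * φ ≠ n * S.a) (h6 : ∀ n : ℤ, 6 * φ ≠ n * S.a) :
    ∃ s : K, (S.a : K) * S.p * S.d s + (φ : K) * S.d S.p * s = -P := by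
  obtain ⟨x1, hx1, x, g, hg, hgl, hJ⟩ := S.approx X hX0
  set X1 := X - x1 with hX1
  set Jg := (S.a : K) * S.p * S.d g + (x : K) * S.d S.p * g with hJg
  have hY0 : Y ≠ 0 := by
    intro h; rw [h] at hX; rw [hX] at hX0; simp at hX0
  obtain ⟨y, h, hh, hyl⟩ := S.ex Y hY0
  have hDX1 : S.D X1 = 2 * Y * F := by rw [hX1, der_sub S.hD, hx1, sub_zero, hX]
  have e1 := S.der hgl
  rw [hDX1] at e1
  have e2 : S.LD (y + f) (2 * h * P) (2 * Y * F) := by
    have h1 := S.mul (S.mul (S.int 2) hyl) hF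
    rw [zero_add] at h1
    push_cast at h1
    exact h1
  have h2 : (2 : K) ≠ 0 := two_ne_zero
  obtain ⟨hw, hJP⟩ := S.eq_of hJ e1 (mul_ne_zero (mul_ne_zero h2 hh) hP) e2
  have hy : y = x - φ := by rw [hf] at hw; linarith
  -- the cubic in `X1`
  set c2 := 3 * x1 with hc2
  set c4 := 3 * x1 ^ 2 + α with hc4
  set c6 := x1 ^ 3 + α * x1 + β with hc6
  have hcub : Y ^ 2 = 1 * (X1 * X1 * X1) + c2 * (X1 * X1) + c4 * X1 + c6 := by
    rw [hXY, hc2, hc4, hc6, hX1]; ring
  have h3D : S.D (3 : L) = 0 := by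
    have := der_nat S.hD 3
    simpa using this
  have hDc2 : S.D c2 = 0 := by rw [hc2, S.hD.mul, hx1, h3D]; ring
  have hDx2 : S.D (x1 ^ 2) = 0 := by rw [pow_two, S.hD.mul, hx1]; ring
  have hDx3 : S.D (x1 ^ 3) = 0 := by rw [pow_succ, S.hD.mul, hx1, hDx2]; ring
  have hDc4 : S.D c4 = 0 := by rw [hc4, S.hD.add, S.hD.mul, hDx2, h3D, hα]; ring
  have hDc6 : S.D c6 = 0 := by rw [hc6, S.hD.add, S.hD.add, S.hD.mul, hDx3, hx1, hα, hβ]; ring
  obtain ⟨M, A3, A2, A1, A0, l3, l2, l1, l0, hnz⟩ := S.level x c2 c4 c6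
  have j3 := S.cst S.hD.one l3
  have j2 := S.cst hDc2 l2
  have j1 := S.cst hDc4 l1
  have j0 := S.cst hDc6 l0
  have hgg := S.mul hgl hgl
  have hggg := S.mul hgg hgl
  have hQl : S.LD M (A3 * (g * g * g) + A2 * (g * g) + A1 * g + A0) (Y ^ 2) := by
    rw [hcub]
    have t3 := S.mul l3 hggg
    have t2 := S.mul l2 hgg
    have t1 := S.mul l1 hgl
    rw [show M - 3 * x + (x + x + x) = M by ring] at t3
    rw [show M - 2 * x + (x + x) = M by ring] at t2
    rw [show M - x + x = M by ring] at t1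
    exact S.add (S.add (S.add t3 t2) t1) l0
  have hdlin : ∀ u v : K, S.d (u + v) = S.d u + S.d v := S.hd.add
  have hdmul : ∀ u v : K, S.d (u * v) = u * S.d v + v * S.d u := S.hd.mul
  have hd2 : S.d (2 : K) = 0 := by simpa using der_nat S.hd 2
  have hd3 : S.d (3 : K) = 0 := by simpa using der_nat S.hd 3
  have hd6 : S.d (6 : K) = 0 := by simpa using der_nat S.hd 6
  push_cast at j3 j2 j1 j0
  have hQ0 : A3 * (g * g * g) + A2 * (g * g) + A1 * g + A0 ≠ 0 := by
    intro hQ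
    have q1 : 3 * A3 * (g * g) + 2 * A2 * g + A1 = 0 := by
      have h1 := congrArg S.d hQ
      simp only [hdlin, hdmul, S.hd.zero] at h1
      have h2' : (3 * A3 * (g * g) + 2 * A2 * g + A1) * Jg = 0 := by
        rw [hJg]
        linear_combination (S.a : K) * S.p * h1 + (M : K) * S.d S.p * hQ - (g * g * g) * j3 - (g * g) * j2
          - g * j1 - j0
      exact (mul_eq_zero.1 h2').resolve_right hJ
    have q2 : 6 * A3 * g + 2 * A2 = 0 := by
      have h1 := congrArg S.d q1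
      simp only [hdlin, hdmul, S.hd.zero, hd2, hd3] at h1
      have h2' : (6 * A3 * g + 2 * A2) * Jg = 0 := by
        rw [hJg]
        linear_combination (S.a : K) * S.p * h1 + ((M : K) - x) * S.d S.p * q1 - 3 * (g * g) * j3 - 2 * g * j2
          - j1
      exact (mul_eq_zero.1 h2').resolve_right hJ
    have q3 : 6 * A3 = 0 := by
      have h1 := congrArg S.d q2
      simp only [hdlin, hdmul, S.hd.zero, hd2, hd6] at h1
      have h2' : (6 * A3) * Jg = 0 := by
        rw [hJg]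
        linear_combination (S.a : K) * S.p * h1 + ((M : K) - 2 * x) * S.d S.p * q2 - 6 * g * j3 - 2 * j2
      exact (mul_eq_zero.1 h2').resolve_right hJ
    have z3 : A3 = 0 := by
      rcases mul_eq_zero.1 q3 with h' | h'
      · norm_num at h'
      · exact h'
    have z2 : A2 = 0 := by
      rw [z3] at q2
      have : (2 : K) * A2 = 0 := by linear_combination q2
      exact (mul_eq_zero.1 this).resolve_left h2
    have z1 : A1 = 0 := by rw [z3, z2] at q1; linear_combination q1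
    have z0 : A0 = 0 := by rw [z3, z2, z1] at hQ; linear_combination hQ
    exact hnz ⟨z3, z2, z1, z0⟩
  have hYY : S.LD (y + y) (h * h) (Y ^ 2) := by rw [pow_two]; exact S.mul hyl hyl
  obtain ⟨hMy, hQh⟩ := S.eq_of hQ0 hQl (mul_ne_zero hh hh) hYY
  have hM : M = 2 * x - 2 * φ := by rw [hMy, hy]; ring
  have ha := S.ha
  -- no quadratic term
  have z2 : A2 = 0 := by
    by_contra hA
    obtain ⟨m, hm⟩ := S.cst_w hDc2 l2 hA
    apply h4 (2 * m)
    push_cast
    rw [hM] at hm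
    linarith
  have hdh : ∀ rhs : K, h * h = rhs → 2 * h * S.d h = S.d rhs := by
    intro rhs hr
    rw [← hr, hdmul]; ring
  by_cases hA3 : A3 = 0
  · by_cases hA1 : A1 = 0
    · have hA0 : A0 ≠ 0 := fun h0 => hnz ⟨hA3, z2, hA1, h0⟩
      have e : h * h = A0 := by rw [← hQh, hA3, z2, hA1]; ring
      have e' := hdh _ e
      refine ⟨-(g / (2 * h)), ?_⟩
      have hds : S.d (-(g / (2 * h))) = -((h * S.d g - g * S.d h) / (2 * h ^ 2)) := by
        rw [der_neg S.hd, der_div S.hd _ _ (mul_ne_zero h2 hh), hdmul, hd2]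
        field_simp
        ring
      rw [hds]
      have hMK : (M : K) = 2 * x - 2 * φ := by rw [hM]; push_cast; ring
      rw [hMK] at j0
      have hJP' : (S.a : K) * S.p * S.d g + (x : K) * S.d S.p * g = 2 * h * P := hJP
      have hh2 : h ^ 2 = A0 := by rw [pow_two]; exact e
      have key : (S.a : K) * S.p * (h * S.d g - g * S.d h) + (φ : K) * S.d S.p * g * h = 2 * h ^ 2 * P := by
        apply mul_left_cancel₀ (mul_ne_zero h2 hh)
        linear_combination (2 * h ^ 2) * hJP' - (S.a : K) * S.p * g * e' - g * j0 + (2 * ((x : K) - φ) * S.d S.p * g) * (-hh2)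
      field_simp
      linear_combination (-1 : K) * key
    · have hA0 : A0 = 0 := by
        by_contra hA0
        obtain ⟨m, hm⟩ := S.cst_w hDc4 l1 hA1
        obtain ⟨m', hm'⟩ := S.cst_w hDc6 l0 hA0
        apply h4 (2 * (2 * m - m'))
        push_cast
        rw [hM] at hm hm'
        linarith
      have e : h * h = A1 * g := by rw [← hQh, hA3, z2, hA0]; ring
      have e' := hdh _ e
      rw [hdmul] at e'
      refine ⟨-(h / A1), ?_⟩
      have hds : S.d (-(h / A1)) = -((A1 * S.d h - h * S.d A1) / A1 ^ 2) := by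
        rw [der_neg S.hd, der_div S.hd _ _ hA1]
      rw [hds]
      have hMK : (M : K) = 2 * x - 2 * φ := by rw [hM]; push_cast; ring
      rw [hMK] at j1
      have hJP' : (S.a : K) * S.p * S.d g + (x : K) * S.d S.p * g = 2 * h * P := hJP
      have key : (S.a : K) * S.p * (A1 * S.d h - h * S.d A1) + (φ : K) * S.d S.p * h * A1 = A1 ^ 2 * P := by
        apply mul_left_cancel₀ (mul_ne_zero h2 hh)
        linear_combination A1 ^ 2 * hJP' + (S.a : K) * S.p * A1 * e' - A1 * g * j1 +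
          (-(2 * (S.a : K) * S.p * S.d A1) + 2 * (φ : K) * S.d S.p * A1) * e
      field_simp
      linear_combination (-1 : K) * key
  · -- the cubic case
    obtain ⟨hw3, hA31⟩ := S.eq_of hA3 l3 one_ne_zero S.one
    have hx2 : x = -2 * φ := by linarith
    have hA1 : A1 = 0 := by
      by_contra hA
      obtain ⟨m, hm⟩ := S.cst_w hDc4 l1 hA
      apply h4 m
      linarith
    have hA0 : A0 = 0 := by
      by_contra hA
      obtain ⟨m, hm⟩ := S.cst_w hDc6 l0 hA
      apply h6 m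
      linarith
    have e : h * h = g * g * g := by rw [← hQh, hA31, z2, hA1, hA0]; ring
    have e' := hdh _ e
    rw [hdmul, hdmul] at e'
    refine ⟨g / h, ?_⟩
    rw [der_div S.hd _ _ hh]
    have hxK : (x : K) = -2 * φ := by rw [hx2]; push_cast; ring
    have hJP' : (S.a : K) * S.p * S.d g + (x : K) * S.d S.p * g = 2 * h * P := hJP
    rw [hxK] at hJP'
    have key : (S.a : K) * S.p * (h * S.d g - g * S.d h) + (φ : K) * S.d S.p * g * h = -(h ^ 2 * P) := by
      apply mul_left_cancel₀ (mul_ne_zero h2 hh)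
      linear_combination (-(h ^ 2)) * hJP' - (S.a : K) * S.p * g * e' + (3 * (S.a : K) * S.p * S.d g) * e
    field_simp
    linear_combination key

end Pool.Agent.H938R2.EL2
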