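import Mathlib

set_option autoImplicit false
set_option linter.unusedSectionVars false

/-!
The first order equation `a p s' + φ p' s = -P` has no rational solution `s` when `p` has at least
two roots, all simple, and all roots of `P` are roots of `p`.
-/

open Polynomial

namespace Pool.Agent.H938R2.EL2

variable {k : Type*} [Field k] [CharZero k]

/-- multiplicities of the first order operator at a simple root -/
theorem mult_op (p N : k[X]) (hN : N ≠ 0) (ρ : k) (a φ : ℚ) (ha : 0 < a) (hφ : 0 < φ)
    (hρ : p.eval ρ = 0) (hρ' : p.derivative.eval ρ ≠ 0) :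
    C (a : k) * p * derivative N + C (φ : k) * derivative p * N ≠ 0 ∧
    (C (a : k) * p * derivative N + C (φ : k) * derivative p * N).rootMultiplicity ρ =
      N.rootMultiplicity ρ := by
  classical
  obtain ⟨N1, hN1, hnd⟩ := exists_eq_pow_rootMultiplicity_mul_and_not_dvd N hN ρ
  set n := N.rootMultiplicity ρ with hn
  have hN1e : N1.eval ρ ≠ 0 := fun h => hnd (dvd_iff_isRoot.2 h)
  obtain ⟨p1, hp1⟩ := dvd_iff_isRoot.2 hρ
  have hp1e : p1.eval ρ = p.derivative.eval ρ := by
    rw [hp1]; simp [derivative_mul]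
  set R := C (a : k) * p1 * ((n : k[X]) * N1 + (X - C ρ) * derivative N1) + C (φ : k) * derivative p * N1 with hR
  have key : (X - C ρ) * derivative N = (X - C ρ) ^ n * ((n : k[X]) * N1 + (X - C ρ) * derivative N1) := by
    conv_lhs => rw [hN1]
    rw [derivative_mul, derivative_X_sub_C_pow]
    rcases n with _ | n
    · simp
    · simp only [Nat.add_sub_cancel, map_natCast]
      rw [pow_succ]
      push_cast
      ring
  have hG : C (a : k) * p * derivative N + C (φ : k) * derivative p * N = (X - C ρ) ^ n * R := by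
    have h1 : C (a : k) * p * derivative N = C (a : k) * p1 * ((X - C ρ) * derivative N) := by
      conv_lhs => rw [hp1]
      ring
    rw [h1, key, hR]
    conv_lhs => rw [hN1]
    ring
  have hRe : R.eval ρ ≠ 0 := by
    have h1 : R.eval ρ = (((a * n + φ : ℚ)) : k) * (p.derivative.eval ρ * N1.eval ρ) := by
      rw [hR]
      simp only [eval_add, eval_mul, eval_C, eval_natCast, eval_sub, eval_X, sub_self, zero_mul, add_zero, hp1e]
      push_cast
      ring
    rw [h1]
    apply mul_ne_zero _ (mul_ne_zero hρ' hN1e)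
    have : (0 : ℚ) < a * n + φ := by positivity
    exact_mod_cast this.ne'
  have hR0 : R ≠ 0 := by rintro h; rw [h] at hRe; simp at hRe
  refine ⟨by rw [hG]; exact mul_ne_zero (pow_ne_zero _ (X_sub_C_ne_zero ρ)) hR0, ?_⟩
  rw [hG, rootMultiplicity_mul (mul_ne_zero (pow_ne_zero _ (X_sub_C_ne_zero ρ)) hR0), rootMultiplicity_X_sub_C_pow]
  have : R.rootMultiplicity ρ = 0 := rootMultiplicity_eq_zero hRe
  rw [this, add_zero]

/-- the denominator of a solution has no zeros -/
theorem den_op (p P N M : k[X]) (ρ : k) (a φ : ℚ) (ha : 0 < a) (hφn : ∀ n : ℕ, φ ≠ n * a)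
    (hsimple : p.eval ρ = 0 → p.derivative.eval ρ ≠ 0) (hM0 : M ≠ 0)
    (hM : M.eval ρ = 0) (hN : N.eval ρ ≠ 0)
    (he : C (a : k) * p * (derivative N * M - N * derivative M) + C (φ : k) * derivative p * N * M = -(P * M ^ 2)) :
    False := by
  classical
  obtain ⟨M1, hM1, hnd⟩ := exists_eq_pow_rootMultiplicity_mul_and_not_dvd M hM0 ρ
  set n := M.rootMultiplicity ρ with hn
  have hM1e : M1.eval ρ ≠ 0 := fun h => hnd (dvd_iff_isRoot.2 h)
  have hn1 : 1 ≤ n := (rootMultiplicity_pos hM0).2 hM
  have hX : (X - C ρ : k[X]) ≠ 0 := X_sub_C_ne_zero ρ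
  have key : (X - C ρ) * derivative M = (X - C ρ) ^ n * ((n : k[X]) * M1 + (X - C ρ) * derivative M1) := by
    conv_lhs => rw [hM1]
    rw [derivative_mul, derivative_X_sub_C_pow]
    clear_value n
    obtain ⟨j, rfl⟩ := Nat.exists_eq_add_of_le hn1
    simp only [Nat.add_sub_cancel_left, map_natCast]
    rw [show (X - C ρ : k[X]) ^ (1 + j) = (X - C ρ) ^ j * (X - C ρ) by rw [add_comm, pow_succ]]
    push_cast
    ring
  have h1 : C (a : k) * p * (derivative N * (X - C ρ) * M1 - N * ((n : k[X]) * M1 + (X - C ρ) * derivative M1)) +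
      C (φ : k) * derivative p * N * (X - C ρ) * M1 = -(P * (X - C ρ) ^ (n + 1) * M1 ^ 2) := by
    apply mul_left_cancel₀ (pow_ne_zero n hX)
    have h2 := congrArg (fun T => (X - C ρ) * T) he
    beta_reduce at h2
    have h3 : (X - C ρ) * (C (a : k) * p * (derivative N * M - N * derivative M) + C (φ : k) * derivative p * N * M) =
        C (a : k) * p * (derivative N * (X - C ρ) * M - N * ((X - C ρ) * derivative M)) +
          C (φ : k) * derivative p * N * (X - C ρ) * M := by ring
    rw [h3, key] at h2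
    have h4 : M = (X - C ρ) ^ n * M1 := hM1
    rw [h4] at h2
    rw [pow_succ]
    linear_combination h2
  have h2 := congrArg (eval ρ) h1
  simp only [eval_add, eval_mul, eval_C, eval_natCast, eval_sub, eval_X, sub_self, zero_mul, add_zero, mul_zero,
    eval_neg, eval_pow, zero_sub, ne_eq, Nat.succ_ne_zero, not_false_eq_true, zero_pow, neg_zero] at h2
  have haK : (a : k) ≠ 0 := by exact_mod_cast ha.ne'
  have hnK : (n : k) ≠ 0 := by exact_mod_cast (by omega : n ≠ 0)
  have hp0 : p.eval ρ = 0 := by
    have h3 : (a : k) * p.eval ρ * (N.eval ρ * (n * M1.eval ρ)) = 0 := by linear_combination -h2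
    rcases mul_eq_zero.1 h3 with h | h
    · exact (mul_eq_zero.1 h).resolve_left haK
    · exact absurd h (mul_ne_zero hN (mul_ne_zero hnK hM1e))
  have hp' := hsimple hp0
  obtain ⟨p1, hp1⟩ := dvd_iff_isRoot.2 hp0
  have hp1e : p1.eval ρ = p.derivative.eval ρ := by
    rw [hp1]; simp [derivative_mul]
  have h3 : C (a : k) * p1 * (derivative N * (X - C ρ) * M1 - N * ((n : k[X]) * M1 + (X - C ρ) * derivative M1)) +
      C (φ : k) * derivative p * N * M1 = -(P * (X - C ρ) ^ n * M1 ^ 2) := by
    apply mul_left_cancel₀ hX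
    rw [pow_succ] at h1
    have h4 : C (a : k) * p * (derivative N * (X - C ρ) * M1 - N * ((n : k[X]) * M1 + (X - C ρ) * derivative M1)) =
      (X - C ρ) * (C (a : k) * p1 * (derivative N * (X - C ρ) * M1 - N * ((n : k[X]) * M1 + (X - C ρ) * derivative M1))) := by
      conv_lhs => rw [hp1]
      ring
    rw [h4] at h1
    linear_combination h1
  have h4 := congrArg (eval ρ) h3
  simp only [eval_add, eval_mul, eval_C, eval_natCast, eval_sub, eval_X, sub_self, zero_mul, add_zero, mul_zero,
    eval_neg, eval_pow, zero_sub, zero_pow (show n ≠ 0 by omega), neg_zero, hp1e] at h4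
  have h5 : ((φ - n * a : ℚ) : k) * (p.derivative.eval ρ * N.eval ρ * M1.eval ρ) = 0 := by
    push_cast
    linear_combination h4
  rcases mul_eq_zero.1 h5 with h | h
  · have h6 : φ - n * a = 0 := by exact_mod_cast h
    exact hφn n (by linarith)
  · exact mul_ne_zero (mul_ne_zero hp' hN) hM1e h

/-- no rational solution -/
theorem no_s [IsAlgClosed k] (p P : k[X]) (a φ : ℚ) (ha : 0 < a) (hφ : 0 < φ) (hφn : ∀ n : ℕ, φ ≠ n * a)
    (hp2 : 2 ≤ p.natDegree) (hsimple : ∀ ρ, p.eval ρ = 0 → p.derivative.eval ρ ≠ 0) (hP : P ≠ 0)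
    (rts : Finset k) (hrts : ∀ ρ ∈ rts, p.eval ρ = 0)
    (hPd : P.natDegree = ∑ ρ ∈ rts, P.rootMultiplicity ρ)
    (N M : k[X]) (hM0 : M ≠ 0) (hcop : IsCoprime N M)
    (he : C (a : k) * p * (derivative N * M - N * derivative M) + C (φ : k) * derivative p * N * M = -(P * M ^ 2)) :
    False := by
  classical
  -- `M` is a constant
  have hMd : M.natDegree = 0 := by
    by_contra hd
    obtain ⟨ρ, hρ⟩ := IsAlgClosed.exists_root M (by
      rw [degree_eq_natDegree hM0]
      exact_mod_cast hd)
    have hN : N.eval ρ ≠ 0 := by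
      intro h
      obtain ⟨u, v, huv⟩ := hcop
      have h1 := congrArg (eval ρ) huv
      rw [eval_add, eval_mul, eval_mul, h, hρ, mul_zero, mul_zero, add_zero, eval_one] at h1
      exact zero_ne_one h1
    exact den_op p P N M ρ a φ ha hφn (hsimple ρ) hM0 hρ hN he
  obtain ⟨μ, hμ⟩ : ∃ μ, M = C μ := ⟨_, eq_C_of_natDegree_eq_zero hMd⟩
  have hμ0 : μ ≠ 0 := by rintro rfl; rw [map_zero] at hμ; exact hM0 hμ
  have hN0 : N ≠ 0 := by
    rintro rfl
    have h1 : P * M ^ 2 = 0 := by
      have : (0 : k[X]) = -(P * M ^ 2) := by rw [← he]; simp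
      exact neg_eq_zero.1 this.symm
    rcases mul_eq_zero.1 h1 with h | h
    · exact hP h
    · exact hM0 (pow_eq_zero_iff two_ne_zero |>.1 h)
  set G := C (a : k) * p * derivative N + C (φ : k) * derivative p * N with hG
  have hGP : G = C (-μ) * P := by
    have h1 : G * C μ = -(P * C μ ^ 2) := by
      rw [← hμ, ← he, hG, hμ, derivative_C]; ring
    have hC : (C μ : k[X]) ≠ 0 := C_ne_zero.2 hμ0
    apply mul_right_cancel₀ hC
    rw [h1, map_neg]; ring
  have hp0 : p ≠ 0 := by rintro rfl; rw [natDegree_zero] at hp2; omega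
  -- degrees
  have hcoef : G.coeff (p.natDegree + N.natDegree - 1) ≠ 0 := by
    have e1 : (derivative p * N).coeff (p.natDegree + N.natDegree - 1) = p.natDegree * p.leadingCoeff * N.leadingCoeff := by
      have h1 := coeff_mul_add_eq_of_natDegree_le (natDegree_derivative_le p) (le_refl N.natDegree)
      rw [show p.natDegree - 1 + N.natDegree = p.natDegree + N.natDegree - 1 by omega] at h1
      rw [h1, coeff_derivative, show p.natDegree - 1 + 1 = p.natDegree by omega]
      have : ((p.natDegree - 1 : ℕ) : k) + 1 = p.natDegree := by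
        have h2 : p.natDegree - 1 + 1 = p.natDegree := by omega
        exact_mod_cast congrArg (Nat.cast (R := k)) h2
      rw [this, leadingCoeff, leadingCoeff]; ring
    have e2 : (p * derivative N).coeff (p.natDegree + N.natDegree - 1) = N.natDegree * p.leadingCoeff * N.leadingCoeff := by
      rcases Nat.eq_zero_or_pos N.natDegree with h0 | h0
      · rw [eq_C_of_natDegree_eq_zero h0, derivative_C, mul_zero, coeff_zero, natDegree_C]; simp
      · have h1 := coeff_mul_add_eq_of_natDegree_le (le_refl p.natDegree) (natDegree_derivative_le N)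
        rw [show p.natDegree + (N.natDegree - 1) = p.natDegree + N.natDegree - 1 by omega] at h1
        rw [h1, coeff_derivative, show N.natDegree - 1 + 1 = N.natDegree by omega]
        have : ((N.natDegree - 1 : ℕ) : k) + 1 = N.natDegree := by
          have h2 : N.natDegree - 1 + 1 = N.natDegree := by omega
          exact_mod_cast congrArg (Nat.cast (R := k)) h2
        rw [this, leadingCoeff, leadingCoeff]; ring
    have e3 : G.coeff (p.natDegree + N.natDegree - 1) =
        ((a * N.natDegree + φ * p.natDegree : ℚ) : k) * (p.leadingCoeff * N.leadingCoeff) := by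
      rw [hG, coeff_add, mul_assoc, mul_assoc, coeff_C_mul, coeff_C_mul, e1, e2]
      push_cast; ring
    rw [e3]
    apply mul_ne_zero _ (mul_ne_zero (leadingCoeff_ne_zero.2 hp0) (leadingCoeff_ne_zero.2 hN0))
    have h1 : (0 : ℚ) < p.natDegree := by exact_mod_cast (by omega : 0 < p.natDegree)
    have : (0 : ℚ) < a * N.natDegree + φ * p.natDegree := by positivity
    exact_mod_cast this.ne'
  have hdeg : p.natDegree + N.natDegree - 1 ≤ P.natDegree := by
    have h1 := le_natDegree_of_ne_zero hcoef
    rw [hGP, natDegree_C_mul (neg_ne_zero.2 hμ0)] at h1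
    exact h1
  have hmult : ∀ ρ ∈ rts, P.rootMultiplicity ρ = N.rootMultiplicity ρ := by
    intro ρ hρ
    have h1 := (mult_op p N hN0 ρ a φ ha hφ (hrts ρ hρ) (hsimple ρ (hrts ρ hρ))).2
    rw [← hG, hGP, rootMultiplicity_mul (mul_ne_zero (C_ne_zero.2 (neg_ne_zero.2 hμ0)) hP)] at h1
    have h2 : (C (-μ)).rootMultiplicity ρ = 0 := rootMultiplicity_C _ _
    rw [h2, zero_add] at h1
    exact h1
  have hle : ∑ ρ ∈ rts, P.rootMultiplicity ρ ≤ N.natDegree := by
    rw [Finset.sum_congr rfl hmult]
    have h1 : ∀ ρ, N.rootMultiplicity ρ = N.roots.count ρ := fun ρ => (count_roots N).symm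
    simp only [h1]
    calc ∑ ρ ∈ rts, N.roots.count ρ ≤ ∑ ρ ∈ rts ∪ N.roots.toFinset, N.roots.count ρ :=
          Finset.sum_le_sum_of_subset Finset.subset_union_left
      _ = N.roots.card := by
          apply Multiset.sum_count_eq_card
          intro ρ hρ
          exact Finset.mem_union_right _ (Multiset.mem_toFinset.2 hρ)
      _ ≤ N.natDegree := card_roots' N
  omega

end Pool.Agent.H938R2.EL2
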