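import Mathlib
import Pool.Agent.H922R2.EL.FC
import Pool.Agent.H938R2.EL2.A
import Pool.Agent.H938R2.EL2.B

set_option autoImplicit false
set_option linter.unusedSectionVars false
set_option linter.style.haveILetI false

/-!
The calculus of leading forms at the divisor `E`.
-/

open MvPolynomial

namespace Pool.Agent.H938R2.EL2

open Pool.Agent.H922R2 (IsDer)
open Pool.Agent.H922R2.R
open Pool.Agent.H922R2.EL

section poly

open Polynomial

variable {k : Type*} [Field k] [CharZero k]

theorem fac (N : k[X]) (hN : N ≠ 0) (ρ : k) : ∃ (n : ℕ) (N1 : k[X]), N = (Polynomial.X - Polynomial.C ρ) ^ n * N1 ∧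
    N1.eval ρ ≠ 0 ∧ (Polynomial.X - Polynomial.C ρ) * derivative N =
      (Polynomial.X - Polynomial.C ρ) ^ n * ((n : k[X]) * N1 + (Polynomial.X - Polynomial.C ρ) * derivative N1) := by
  classical
  obtain ⟨N1, hN1, hnd⟩ := exists_eq_pow_rootMultiplicity_mul_and_not_dvd N hN ρ
  refine ⟨N.rootMultiplicity ρ, N1, hN1, fun h => hnd (dvd_iff_isRoot.2 h), ?_⟩
  set n := N.rootMultiplicity ρ with hn
  conv_lhs => rw [hN1]
  rw [derivative_mul, derivative_X_sub_C_pow]
  clear_value n
  rcases n with _ | n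
  · simp
  · simp only [Nat.add_sub_cancel, map_natCast]
    rw [pow_succ]
    push_cast
    ring

/-- exponents of solutions of the homogeneous equation -/
theorem int_op (p N M : k[X]) (ρ : k) (a w : ℚ) (hp : p.eval ρ = 0) (hp' : p.derivative.eval ρ ≠ 0)
    (hN : N ≠ 0) (hM : M ≠ 0)
    (he : Polynomial.C (a : k) * p * (derivative N * M - N * derivative M) +
      Polynomial.C (w : k) * derivative p * N * M = 0) : ∃ m : ℤ, w = -(m * a) := by
  obtain ⟨n, N1, hN1, hN1e, kN⟩ := fac N hN ρ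
  obtain ⟨m, M1, hM1, hM1e, kM⟩ := fac M hM ρ
  obtain ⟨p1, hp1⟩ := dvd_iff_isRoot.2 hp
  have hp1e : p1.eval ρ = p.derivative.eval ρ := by
    rw [hp1]; simp [derivative_mul]
  have hX : (Polynomial.X - Polynomial.C ρ : k[X]) ≠ 0 := X_sub_C_ne_zero ρ
  have h1 : Polynomial.C (a : k) * p1 * (((n : k[X]) * N1 + (Polynomial.X - Polynomial.C ρ) * derivative N1) * M1 -
      N1 * ((m : k[X]) * M1 + (Polynomial.X - Polynomial.C ρ) * derivative M1)) +
      Polynomial.C (w : k) * derivative p * N1 * M1 = 0 := by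
    apply mul_left_cancel₀ (pow_ne_zero n hX)
    apply mul_left_cancel₀ (pow_ne_zero m hX)
    rw [mul_zero, mul_zero]
    have h2 : Polynomial.C (a : k) * p * (derivative N * M - N * derivative M) =
        Polynomial.C (a : k) * p1 * (((Polynomial.X - Polynomial.C ρ) * derivative N) * M -
          N * ((Polynomial.X - Polynomial.C ρ) * derivative M)) := by
      conv_lhs => rw [hp1]
      ring
    rw [h2, kN, kM] at he
    have h3 : ∀ T : k[X], Polynomial.C (w : k) * derivative p * N * M = T →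
        Polynomial.C (w : k) * derivative p * ((Polynomial.X - Polynomial.C ρ) ^ n * N1) *
          ((Polynomial.X - Polynomial.C ρ) ^ m * M1) = T := by
      intro T hT
      rw [← hN1, ← hM1]; exact hT
    have h4 := h3 _ rfl
    have h5 : Polynomial.C (a : k) * p1 * (((Polynomial.X - Polynomial.C ρ) ^ n * ((n : k[X]) * N1 + (Polynomial.X - Polynomial.C ρ) * derivative N1)) * M -
          N * ((Polynomial.X - Polynomial.C ρ) ^ m * ((m : k[X]) * M1 + (Polynomial.X - Polynomial.C ρ) * derivative M1))) =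
        Polynomial.C (a : k) * p1 * (((Polynomial.X - Polynomial.C ρ) ^ n * ((n : k[X]) * N1 + (Polynomial.X - Polynomial.C ρ) * derivative N1)) *
          ((Polynomial.X - Polynomial.C ρ) ^ m * M1) -
          ((Polynomial.X - Polynomial.C ρ) ^ n * N1) * ((Polynomial.X - Polynomial.C ρ) ^ m * ((m : k[X]) * M1 + (Polynomial.X - Polynomial.C ρ) * derivative M1))) := by
      rw [← hN1, ← hM1]
    rw [h5, ← h4] at he
    linear_combination he
  have h2 := congrArg (eval ρ) h1
  simp only [Polynomial.eval_add, Polynomial.eval_mul, Polynomial.eval_C, Polynomial.eval_natCast,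
    Polynomial.eval_sub, Polynomial.eval_X, sub_self, zero_mul, add_zero,
    Polynomial.eval_zero, hp1e] at h2
  have h5 : (((n - m : ℚ) * a + w : ℚ) : k) * (p.derivative.eval ρ * N1.eval ρ * M1.eval ρ) = 0 := by
    push_cast
    linear_combination h2
  have h6 := (mul_eq_zero.1 h5).resolve_right (mul_ne_zero (mul_ne_zero hp' hN1e) hM1e)
  refine ⟨(n : ℤ) - m, ?_⟩
  have h7 : (n - m : ℚ) * a + w = 0 := by exact_mod_cast h6
  push_cast
  linarith

end poly

section dK

variable {k : Type*} [Field k]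

theorem pder_isDer : IsDer (fun x : Polynomial k => Polynomial.derivative x) where
  add x y := by simp
  mul x y := by simp only [Polynomial.derivative_mul]; ring

/-- derivative on `k(X)` -/
noncomputable def dK : KK k → KK k := (exists_ext (L := KK k) _ (pder_isDer (k := k))).choose

theorem dK_isDer : IsDer (dK (k := k)) := (exists_ext (L := KK k) _ (pder_isDer (k := k))).choose_spec.1

theorem dK_alg (x : Polynomial k) : dK (algebraMap (Polynomial k) (KK k) x) =
    algebraMap (Polynomial k) (KK k) (Polynomial.derivative x) :=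
  (exists_ext (L := KK k) _ (pder_isDer (k := k))).choose_spec.2 x

/-- coefficientwise derivative -/
noncomputable def dH (x : HahnSeries ℚ (KK k)) : HahnSeries ℚ (KK k) where
  coeff q := dK (x.coeff q)
  isPWO_support' := x.isPWO_support.mono (by
    intro q hq
    simp only [Function.mem_support] at hq
    intro h
    exact hq (by rw [h, dK_isDer.zero]))

theorem dH_coeff (x : HahnSeries ℚ (KK k)) (q : ℚ) : (dH x).coeff q = dK (x.coeff q) := rfl

theorem dH_support (x : HahnSeries ℚ (KK k)) : (dH x).support ⊆ x.support := by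
  intro q hq
  rw [HahnSeries.mem_support, dH_coeff] at hq
  intro h
  exact hq (by rw [h, dK_isDer.zero])

theorem dK_sum {ι : Type*} (s : Finset ι) (f : ι → KK k) : dK (∑ i ∈ s, f i) = ∑ i ∈ s, dK (f i) := by
  classical
  induction s using Finset.induction_on with
  | empty => simp [dK_isDer.zero]
  | insert a s ha ih => rw [Finset.sum_insert ha, Finset.sum_insert ha, dK_isDer.add, ih]

theorem dH_mul (x y : HahnSeries ℚ (KK k)) : dH (x * y) = x * dH y + y * dH x := by
  ext1; funext q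
  rw [dH_coeff, HahnSeries.coeff_add, mul_comm y, HahnSeries.coeff_mul,
    HahnSeries.coeff_mul_right' y.isPWO_support (dH_support y),
    HahnSeries.coeff_mul_left' x.isPWO_support (dH_support x),
    dK_sum, ← Finset.sum_add_distrib]
  apply Finset.sum_congr rfl
  rintro ⟨i, j⟩ hij
  simp only [dH_coeff, dK_isDer.mul]
  ring

theorem dH_isDer : IsDer (dH (k := k)) where
  add x y := by
    ext1; funext q
    rw [HahnSeries.coeff_add, dH_coeff, dH_coeff, dH_coeff, HahnSeries.coeff_add, dK_isDer.add]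
  mul := dH_mul

theorem dH_hmap (x : HahnSeries ℚ (Polynomial k)) :
    dH (hmap (algebraMap (Polynomial k) (KK k)) x) = hmap (algebraMap (Polynomial k) (KK k)) (dxi x) := by
  ext1; funext q
  rw [dH_coeff, hmap_coeff, hmap_coeff, dxi_coeff, dK_alg]

theorem Lb_dH {c : ℚ} {x : HahnSeries ℚ (KK k)} (h : Lb c x) : Lb c (dH x) := by
  intro q hq
  rw [dH_coeff, h q hq, dK_isDer.zero]

variable [CharZero k]

instance : CharZero (KK k) := charZero_of_injective_algebraMap (algebraMap k (KK k)).injective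

/-- constants of `k(X)` -/
theorem dK_const (z : KK k) (hz : dK z = 0) : ∃ κ : k, z = algebraMap k (KK k) κ := by
  obtain ⟨N, M, hrel, hfd⟩ := IsFractionRing.exists_reduced_fraction (A := Polynomial k) (K := KK k) z
  have hM0 : (M : Polynomial k) ≠ 0 := nonZeroDivisors.ne_zero M.2
  have hzM : z * algebraMap (Polynomial k) (KK k) M = algebraMap (Polynomial k) (KK k) N := by
    rw [← hfd]; exact IsLocalization.mk'_spec (KK k) N M
  have h1 := congrArg dK hzM
  rw [dK_isDer.mul, hz, mul_zero, add_zero, dK_alg, dK_alg] at h1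
  have h2 : algebraMap (Polynomial k) (KK k) (Polynomial.derivative N * M) =
      algebraMap (Polynomial k) (KK k) (N * Polynomial.derivative (M : Polynomial k)) := by
    rw [map_mul, map_mul, ← h1, ← hzM]; ring
  have h3 := IsFractionRing.injective (Polynomial k) (KK k) h2
  have h4 : (M : Polynomial k) ∣ Polynomial.derivative (M : Polynomial k) := by
    have h5 : (M : Polynomial k) ∣ N * Polynomial.derivative (M : Polynomial k) := ⟨_, by rw [← h3]; ring⟩
    exact (hrel.symm.isCoprime).dvd_of_dvd_mul_left h5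
  have h5 : Polynomial.derivative (M : Polynomial k) = 0 := by
    by_contra hne
    have h6 := Polynomial.natDegree_le_of_dvd h4 hne
    have h7 : (M : Polynomial k).natDegree ≠ 0 := by
      intro h0
      rw [Polynomial.eq_C_of_natDegree_eq_zero h0, Polynomial.derivative_C] at hne
      exact hne rfl
    have h8 := Polynomial.natDegree_derivative_lt h7
    omega
  have h6 : Polynomial.derivative N = 0 := by
    rw [h5, mul_zero] at h3
    exact (mul_eq_zero.1 h3).resolve_right hM0
  obtain ⟨ν, hν⟩ : ∃ ν, N = Polynomial.C ν := ⟨_, Polynomial.eq_C_of_natDegree_eq_zero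
    (Polynomial.derivative_eq_zero.1 h6)⟩
  obtain ⟨μ, hμ⟩ : ∃ μ, (M : Polynomial k) = Polynomial.C μ := ⟨_, Polynomial.eq_C_of_natDegree_eq_zero
    (Polynomial.derivative_eq_zero.1 h5)⟩
  have hμ0 : μ ≠ 0 := by rintro rfl; rw [map_zero] at hμ; exact hM0 hμ
  refine ⟨ν / μ, ?_⟩
  have e : ∀ c : k, algebraMap (Polynomial k) (KK k) (Polynomial.C c) = algebraMap k (KK k) c := fun c =>
    (IsScalarTower.algebraMap_apply k (Polynomial k) (KK k) c).symm
  rw [hν, hμ, e, e] at hzM
  rw [map_div₀]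
  have : algebraMap k (KK k) μ ≠ 0 := by rw [Ne, map_eq_zero]; exact hμ0
  rw [eq_div_iff this]; exact hzM

end dK

section inst

variable {k : Type*} [Field k] [CharZero k] [IsAlgClosed k] {L : Type*} [Field L]
  [Algebra (MvPolynomial (Fin 2) k) L]
  [IsFractionRing (MvPolynomial (Fin 2) k) L] [Algebra k L] [IsScalarTower k (MvPolynomial (Fin 2) k) L]

/-- bracket identity on the function field -/
theorem bracketL (r : ℚ) (Y : HahnSeries ℚ k) (u : MvPolynomial (Fin 2) k) (z : L) :
    eul k (EXL L r Y (algebraMap _ L u)) * dH (EXL L r Y z) -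
      dH (EXL L r Y (algebraMap _ L u)) * eul k (EXL L r Y z) =
    -(HahnSeries.single (r - 1) (1 : KK k) * EXL L r Y (DL L u z)) := by
  set ψ := EXL L r Y with hψ
  set W := eul k (ψ (algebraMap _ L u)) with hW
  set V := dH (ψ (algebraMap _ L u)) with hV
  have hal : ∀ n : MvPolynomial (Fin 2) k, W * dH (ψ (algebraMap _ L n)) - V * eul k (ψ (algebraMap _ L n)) =
      -(HahnSeries.single (r - 1) (1 : KK k) * ψ (DL L u (algebraMap _ L n))) := by
    intro n
    have h1 := congrArg (hmap (algebraMap (Polynomial k) (KK k))) (EX_bracket r Y u n)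
    rw [map_sub, map_mul, map_mul, map_neg, map_mul, hmap_single, map_one] at h1
    have he : ∀ x : HahnSeries ℚ (Polynomial k), hmap (algebraMap (Polynomial k) (KK k)) (eul k x) =
        eul k (hmap (algebraMap (Polynomial k) (KK k)) x) := by
      intro x
      ext1; funext q
      rw [hmap_coeff, eul_coeff, eul_coeff, hmap_coeff, map_mul, ← IsScalarTower.algebraMap_apply]
    rw [he, he, ← dH_hmap, ← dH_hmap] at h1
    rw [hW, hV, hψ, DL_alg, EXL_alg, EXL_alg, EXL_alg]
    exact h1
  obtain ⟨n, d, hd, rfl⟩ := IsFractionRing.div_surjective (A := MvPolynomial (Fin 2) k) z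
  have hd0 : d ≠ 0 := nonZeroDivisors.ne_zero hd
  have hd1 := alg_ne (L := L) hd0
  set z := algebraMap (MvPolynomial (Fin 2) k) L n / algebraMap (MvPolynomial (Fin 2) k) L d with hz
  set D := algebraMap (MvPolynomial (Fin 2) k) L d with hD
  have hzd : z * D = algebraMap (MvPolynomial (Fin 2) k) L n := div_mul_cancel₀ _ hd1
  have h1 := hal n
  rw [← hzd, (DL_isDer u).mul, map_mul, map_add, map_mul, map_mul, dH_mul, eul_mul] at h1
  have h2 := hal d
  rw [← hD] at h2
  have h3 : ψ D ≠ 0 := by rw [Ne, map_eq_zero]; exact hd1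
  apply mul_left_cancel₀ h3
  linear_combination h1 - ψ z * h2

/-- leading forms at `E` -/
def LDE (r : ℚ) (Y : HahnSeries ℚ k) (w : ℚ) (g : KK k) (z : L) : Prop :=
  Lb w (EXL L r Y z) ∧ (EXL L r Y z).coeff w = g

variable {r : ℚ} {Y : HahnSeries ℚ k}

theorem LDE.add {w : ℚ} {g g' : KK k} {z z' : L} (h : LDE r Y w g z) (h' : LDE r Y w g' z') :
    LDE r Y w (g + g') (z + z') := by
  refine ⟨by rw [map_add]; exact h.1.add h'.1, by rw [map_add, HahnSeries.coeff_add, h.2, h'.2]⟩

theorem LDE.mul {w w' : ℚ} {g g' : KK k} {z z' : L} (h : LDE r Y w g z) (h' : LDE r Y w' g' z') :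
    LDE r Y (w + w') (g * g') (z * z') := by
  refine ⟨by rw [map_mul]; exact h.1.mul h'.1, by rw [map_mul, h.1.coeff_mul h'.1, h.2, h'.2]⟩

theorem LDE.cst (c : k) : LDE (L := L) r Y 0 (algebraMap k (KK k) c) (algebraMap k L c) := by
  have h1 : EXL L r Y (algebraMap k L c) = HahnSeries.C (algebraMap k (KK k) c) := by
    rw [IsScalarTower.algebraMap_apply k (MvPolynomial (Fin 2) k) L, EXL_alg, MvPolynomial.algebraMap_eq, EX_C,
      hmap_C]
    congr 1
  rw [LDE, h1]
  refine ⟨Lb_C _, ?_⟩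
  rw [HahnSeries.C_apply, HahnSeries.coeff_single, if_pos rfl]

theorem LDE.int (n : ℤ) : LDE (L := L) r Y 0 (n : KK k) (n : L) := by
  have := LDE.cst (L := L) (r := r) (Y := Y) (n : k)
  rwa [map_intCast, map_intCast] at this

theorem LDE.zero (w : ℚ) : LDE (L := L) r Y w 0 0 := by
  rw [LDE, map_zero]; exact ⟨Lb.zero _, rfl⟩

theorem LDE.weak {w w' : ℚ} {g : KK k} {z : L} (h : LDE r Y w g z) (hw : w' < w) : LDE r Y w' 0 z :=
  ⟨h.1.mono hw.le, h.1 w' hw⟩

theorem LDE.ex (z : L) (hz : z ≠ 0) : ∃ w g, g ≠ 0 ∧ LDE r Y w g z := by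
  have h0 : EXL L r Y z ≠ 0 := by rw [Ne, map_eq_zero]; exact hz
  exact ⟨(EXL L r Y z).order, (EXL L r Y z).coeff (EXL L r Y z).order,
    HahnSeries.coeff_order_eq_zero.not.2 h0, Lb_order _, rfl⟩

theorem LDE.uniq {w : ℚ} {g g' : KK k} {z : L} (h : LDE r Y w g z) (h' : LDE r Y w g' z) : g = g' :=
  h.2.symm.trans h'.2

theorem LDE.eq_of {w w' : ℚ} {g g' : KK k} {z : L} (hg : g ≠ 0) (h : LDE r Y w g z) (hg' : g' ≠ 0)
    (h' : LDE r Y w' g' z) : w = w' ∧ g = g' := by
  rcases lt_trichotomy w w' with h1 | h1 | h1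
  · exact absurd (h.uniq (h'.weak h1)) hg
  · subst h1; exact ⟨rfl, h.uniq h'⟩
  · exact absurd (h'.uniq (h.weak h1)) hg'

theorem LDE.inv {w : ℚ} {g : KK k} {z : L} (hg : g ≠ 0) (hz : z ≠ 0) (h : LDE r Y w g z) :
    LDE r Y (-w) g⁻¹ z⁻¹ := by
  obtain ⟨w', g', hg', h'⟩ := LDE.ex (r := r) (Y := Y) z⁻¹ (inv_ne_zero hz)
  have h1 := h.mul h'
  rw [mul_inv_cancel₀ hz] at h1
  have h2 : LDE (L := L) r Y 0 1 1 := by simpa using LDE.int (L := L) (r := r) (Y := Y) 1
  obtain ⟨h3, h4⟩ := LDE.eq_of (mul_ne_zero hg hg') h1 one_ne_zero h2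
  have h5 : w' = -w := by linarith
  have h6 : g' = g⁻¹ := eq_inv_of_mul_eq_one_right h4
  rw [← h5, ← h6]; exact h'

theorem LDE.pow {w : ℚ} {g : KK k} {z : L} (h : LDE r Y w g z) (n : ℕ) : LDE r Y (n * w) (g ^ n) (z ^ n) := by
  induction n with
  | zero => simpa using LDE.int (L := L) (r := r) (Y := Y) 1
  | succ n ih =>
    rw [pow_succ, pow_succ]
    have := ih.mul h
    rwa [show ((n + 1 : ℕ) : ℚ) * w = n * w + w by push_cast; ring]

theorem LDE.zpow {w : ℚ} {g : KK k} {z : L} (hg : g ≠ 0) (hz : z ≠ 0) (h : LDE r Y w g z) (n : ℤ) :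
    LDE r Y (n * w) (g ^ n) (z ^ n) := by
  obtain ⟨n, rfl | rfl⟩ := n.eq_nat_or_neg
  · rw [zpow_natCast, zpow_natCast]
    simpa using h.pow n
  · rw [zpow_neg, zpow_neg, zpow_natCast, zpow_natCast]
    have := (h.pow n).inv (pow_ne_zero _ hg) (pow_ne_zero _ hz)
    rwa [show (((-(n : ℤ)) : ℤ) : ℚ) * w = -(n * w) by push_cast; ring]

theorem ed_simple {u : MvPolynomial (Fin 2) k} {c : k} {Y : HahnSeries ℚ k} (e : Pool.Agent.H922R2.R.ED u c Y) (ρ : k)
    (h : e.p.eval ρ = 0) : (Polynomial.derivative e.p).eval ρ ≠ 0 := by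
  intro h'
  have h1 := congrArg (Polynomial.eval ρ) e.hid
  simp only [Polynomial.eval_sub, Polynomial.eval_mul, Polynomial.eval_C, h, h', Polynomial.eval_one, mul_zero,
    zero_mul, sub_zero] at h1
  exact zero_ne_one h1

theorem ed_LDu {u : MvPolynomial (Fin 2) k} {c : k} {Y : HahnSeries ℚ k} (e : Pool.Agent.H922R2.R.ED u c Y) :
    LDE (L := L) e.r Y (-e.a) (algebraMap (Polynomial k) (KK k) e.p) (algebraMap _ L u) := by
  have h1 := e.lc_u
  have h2 : Lb (-e.a) (EX e.r Y u) := by rw [← h1.1]; exact Lb_order _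
  have h3 : (EX e.r Y u).coeff (-e.a) = e.p := by rw [← h1.1, ← HahnSeries.leadingCoeff_eq]; exact h1.2
  refine ⟨by rw [EXL_alg]; exact h2.hmap _, by rw [EXL_alg, hmap_coeff, h3]⟩

/-- leading forms and the Jacobian derivation -/
theorem ed_LDder {u : MvPolynomial (Fin 2) k} {c : k} {Y : HahnSeries ℚ k} (e : Pool.Agent.H922R2.R.ED u c Y) {w : ℚ} {g : KK k}
    {z : L} (h : LDE e.r Y w g z) :
    LDE e.r Y (w + e.b) ((e.a : KK k) * algebraMap (Polynomial k) (KK k) e.p * dK g +
      (w : KK k) * dK (algebraMap (Polynomial k) (KK k) e.p) * g) (DL L u z) := by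
  have hU := ed_LDu (L := L) e
  have hb := bracketL (L := L) e.r Y u z
  set ψ := EXL L e.r Y with hψ
  set U := ψ (algebraMap _ L u) with hUdef
  have hab := e.hab
  have hcf : ∀ q, (ψ (DL L u z)).coeff q = -(eul k U * dH (ψ z) - dH U * eul k (ψ z)).coeff (q + (e.r - 1)) := by
    intro q
    rw [hb, HahnSeries.coeff_neg, neg_neg, HahnSeries.coeff_single_mul_add, one_mul]
  have hL1 : Lb (-e.a + w) (eul k U * dH (ψ z)) := (hU.1.eul k).mul (Lb_dH h.1)
  have hL2 : Lb (-e.a + w) (dH U * eul k (ψ z)) := (Lb_dH hU.1).mul (h.1.eul k)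
  have hL := hL1.sub hL2
  constructor
  · intro q hq
    rw [hcf, hL _ (by linarith), neg_zero]
  · rw [hcf, show w + e.b + (e.r - 1) = -e.a + w by linarith, HahnSeries.coeff_sub, (hU.1.eul k).coeff_mul (Lb_dH h.1),
      (Lb_dH hU.1).coeff_mul (h.1.eul k), eul_coeff, eul_coeff, dH_coeff, dH_coeff, h.2, hU.2]
    have h1 : algebraMap k (KK k) ((-e.a : ℚ) : k) = -(e.a : KK k) := by rw [map_ratCast]; push_cast; rfl
    have h2 : algebraMap k (KK k) ((w : ℚ) : k) = (w : KK k) := map_ratCast _ _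
    rw [h1, h2]
    ring

theorem ed_LDker {u : MvPolynomial (Fin 2) k} {c : k} {Y : HahnSeries ℚ k} (e : Pool.Agent.H922R2.R.ED u c Y) (hu0 : u ≠ 0)
    {w : ℚ} {g : KK k} (hg : g ≠ 0)
    (h : (e.a : KK k) * algebraMap (Polynomial k) (KK k) e.p * dK g +
      (w : KK k) * dK (algebraMap (Polynomial k) (KK k) e.p) * g = 0) :
    ∃ (m : ℤ) (c : L), w = -(m * e.a) ∧ DL L u c = 0 ∧ LDE e.r Y w g c := by
  have hp0 : e.p ≠ 0 := by
    intro h0
    have := e.hd2
    rw [h0, Polynomial.natDegree_zero] at this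
    omega
  set pp := algebraMap (Polynomial k) (KK k) e.p with hpp
  have hpp0 : pp ≠ 0 := by
    rw [hpp, Ne, map_eq_zero_iff _ (IsFractionRing.injective (Polynomial k) (KK k))]; exact hp0
  -- the exponent
  obtain ⟨m, hm⟩ : ∃ m : ℤ, w = -(m * e.a) := by
    obtain ⟨N, M, hM, hNM⟩ := IsFractionRing.div_surjective (A := Polynomial k) g
    have hM0 : M ≠ 0 := nonZeroDivisors.ne_zero hM
    have hN0 : N ≠ 0 := by rintro rfl; rw [map_zero, zero_div] at hNM; exact hg hNM.symm
    have hMK : algebraMap (Polynomial k) (KK k) M ≠ 0 := by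
      rw [Ne, map_eq_zero_iff _ (IsFractionRing.injective (Polynomial k) (KK k))]; exact hM0
    obtain ⟨ρ, hρ⟩ := IsAlgClosed.exists_root e.p (by
      rw [Polynomial.degree_eq_natDegree hp0]
      have := e.hd2
      exact_mod_cast (by omega : e.p.natDegree ≠ 0))
    apply int_op e.p N M ρ e.a w hρ (ed_simple e ρ hρ) hN0 hM0
    apply IsFractionRing.injective (Polynomial k) (KK k)
    rw [← hNM, der_div dK_isDer _ _ hMK, dK_alg, dK_alg, dK_alg] at h
    have eC : ∀ q : ℚ, algebraMap (Polynomial k) (KK k) (Polynomial.C (q : k)) = (q : KK k) := by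
      intro q
      rw [← Polynomial.algebraMap_eq, ← IsScalarTower.algebraMap_apply, map_ratCast]
    simp only [map_add, map_mul, map_sub, map_zero, eC]
    rw [← hpp]
    field_simp at h
    linear_combination h
  have hu1 := alg_ne (L := L) hu0
  have hU := ed_LDu (L := L) e
  rw [← hpp] at hU
  -- the constant
  have hzp := hU.zpow hpp0 hu1 m
  have hder : ∀ n : ℤ, dK (pp ^ n) = n * pp ^ n * (dK pp / pp) := by
    have hnat : ∀ n : ℕ, dK (pp ^ n) = n * pp ^ n * (dK pp / pp) := by
      intro n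
      induction n with
      | zero => rw [pow_zero, dK_isDer.one]; simp
      | succ n ih => rw [pow_succ, dK_isDer.mul, ih]; push_cast; field_simp; ring
    intro n
    obtain ⟨n, rfl | rfl⟩ := n.eq_nat_or_neg
    · rw [zpow_natCast, hnat]; push_cast; ring
    · rw [zpow_neg, zpow_natCast, der_inv dK_isDer _ (pow_ne_zero _ hpp0), hnat]
      push_cast
      field_simp
  have hJp : (e.a : KK k) * pp * dK (pp ^ m) + (w : KK k) * dK pp * pp ^ m = 0 := by
    rw [hder, hm]
    push_cast
    field_simp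
    ring
  have hpm0 : pp ^ m ≠ 0 := zpow_ne_zero _ hpp0
  have haK : (e.a : KK k) ≠ 0 := by
    have := e.ha.ne'
    exact_mod_cast this
  have hconst : dK (g / pp ^ m) = 0 := by
    rw [der_div dK_isDer _ _ hpm0]
    have h1 : ((e.a : KK k) * pp) * (pp ^ m * dK g - g * dK (pp ^ m)) = 0 := by
      linear_combination pp ^ m * h - g * hJp
    rw [(mul_eq_zero.1 h1).resolve_left (mul_ne_zero haK hpp0), zero_div]
  obtain ⟨κ, hκ⟩ := dK_const _ hconst
  refine ⟨m, algebraMap k L κ * (algebraMap _ L u) ^ m, hm, ?_, ?_⟩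
  · have hDu : DL L u (algebraMap _ L u) = 0 := by rw [DL_alg, Jb_self, map_zero]
    have hDc : DL L u (algebraMap k L κ) = 0 := by
      rw [IsScalarTower.algebraMap_apply k (MvPolynomial (Fin 2) k) L, DL_alg, MvPolynomial.algebraMap_eq,
        Jb_C_right, map_zero]
    have hnat : ∀ n : ℕ, DL L u ((algebraMap _ L u) ^ n) = 0 := by
      intro n
      induction n with
      | zero => rw [pow_zero, (DL_isDer u).one]
      | succ n ih => rw [pow_succ, (DL_isDer u).mul, ih, hDu]; ring
    have hz : DL L u ((algebraMap _ L u) ^ m) = 0 := by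
      obtain ⟨n, rfl | rfl⟩ := m.eq_nat_or_neg
      · rw [zpow_natCast]; exact hnat n
      · rw [zpow_neg, zpow_natCast, der_inv (DL_isDer u) _ (pow_ne_zero _ hu1), hnat, zero_div, neg_zero]
    rw [(DL_isDer u).mul, hz, hDc]; ring
  · have h1 := (LDE.cst (L := L) (r := e.r) (Y := Y) κ).mul hzp
    rw [← hκ, div_mul_cancel₀ _ hpm0, zero_add, show (m : ℚ) * -e.a = w by rw [hm]; ring] at h1
    exact h1

/-- the calculus of leading forms at `E` -/
noncomputable def gd (L : Type*) [Field L] [Algebra (MvPolynomial (Fin 2) k) L]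
    [IsFractionRing (MvPolynomial (Fin 2) k) L] [Algebra k L] [IsScalarTower k (MvPolynomial (Fin 2) k) L]
    {u : MvPolynomial (Fin 2) k} {c : k} {Y : HahnSeries ℚ k} (e : Pool.Agent.H922R2.R.ED u c Y) (hu0 : u ≠ 0) : GD L (KK k) where
  LD := LDE e.r Y
  D := DL L u
  hD := DL_isDer u
  d := dK
  hd := dK_isDer
  p := algebraMap (Polynomial k) (KK k) e.p
  a := e.a
  b := e.b
  ha := e.ha
  add := LDE.add
  mul := LDE.mul
  int := LDE.int
  zero := LDE.zero
  weak := LDE.weak
  ex := LDE.ex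
  uniq := LDE.uniq
  der := ed_LDder e
  ker := ed_LDker e hu0

end inst

end Pool.Agent.H938R2.EL2
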