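import Mathlib
import Pool.Agent.H938R2.EL2.C

set_option autoImplicit false
set_option linter.unusedSectionVars false
set_option linter.style.haveILetI false

/-!
Elliptic generic fibres over an algebraically closed field: the argument at `E` for larger degree of `v`.
-/

open MvPolynomial

namespace Pool.Agent.H938R2.EL2

open Pool.Agent.H922R2 (IsDer)
open Pool.Agent.H922R2.R
open Pool.Agent.H922R2.EL
open Pool.Agent.Helper165.P1 (HQ Pui)

section

variable {k L : Type*} [Field k] [CharZero k] [IsAlgClosed k] [Field L] [Algebra (MvPolynomial (Fin 2) k) L]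
  [IsFractionRing (MvPolynomial (Fin 2) k) L] [Algebra k L] [IsScalarTower k (MvPolynomial (Fin 2) k) L]

/-- the polynomial `F` (the first half of `main_EL`) -/
theorem prepEL (u v : MvPolynomial (Fin 2) k) (hJ : Jb u v = 1) (hm : MonT u)
    (α β : Polynomial k) (hdisc : 4 * α ^ 3 + 27 * β ^ 2 ≠ 0)
    (hmin : ∀ c : k, ¬ ((Polynomial.X - Polynomial.C c) ^ 4 ∣ α ∧ (Polynomial.X - Polynomial.C c) ^ 6 ∣ β))
    (X Y : L) (hXY : Y ^ 2 = X ^ 3 + algebraMap _ L (uP u α) * X + algebraMap _ L (uP u β))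
    (hgen : IntermediateField.adjoin k {algebraMap (MvPolynomial (Fin 2) k) L u, X, Y} = ⊤) :
    ∃ F : MvPolynomial (Fin 2) k, F ≠ 0 ∧ DL L u X = 2 * Y * algebraMap _ L F ∧
      DL L u Y = (3 * X ^ 2 + algebraMap _ L (uP u α)) * algebraMap _ L F ∧ DL L u X ≠ 0 ∧ Y ≠ 0 ∧
      (∀ {c : k} {Y' : HahnSeries ℚ k} (e : Pool.Agent.H922R2.R.ED u c Y'), e.b < (EX e.r Y' F).order) ∧
      VertF u F := by
  classical
  haveI : CharZero L := charZero_of_injective_algebraMap (algebraMap k L).injective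
  have hu := uP_inj_of u v hJ
  have hn2 : 2 ≤ u.totalDegree := by rw [← hm.2]; exact hm.1.1
  have hu0 : u ≠ 0 := by rintro rfl; rw [totalDegree_zero] at hn2; omega
  have hDu : DL L u (algebraMap _ L u) = 0 := by rw [DL_alg, Jb_self, map_zero]
  -- `D X ≠ 0`
  have hX0 : DL L u X ≠ 0 := by
    intro hX
    have hY : DL L u Y = 0 := by
      have h1 := congrArg (DL L u) hXY
      rw [(DL_isDer u).add, (DL_isDer u).add, (DL_isDer u).mul, (DL_isDer u).pow, (DL_isDer u).pow, hX,
        DL_alg, DL_alg, Jb_uP, Jb_uP] at h1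
      push_cast at h1
      have h2 : Y * DL L u Y = 0 := by
        have h3 : (2 : L) * (Y * DL L u Y) = 0 := by
          simp only [map_zero, mul_zero, add_zero] at h1
          linear_combination h1
        exact (mul_eq_zero.1 h3).resolve_left two_ne_zero
      rcases mul_eq_zero.1 h2 with h | h
      · rw [h, (DL_isDer u).zero]
      · exact h
    have hall : ∀ z : L, DL L u z = 0 := by
      intro z
      have hz : z ∈ IntermediateField.adjoin k {algebraMap (MvPolynomial (Fin 2) k) L u, X, Y} := by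
        rw [hgen]; trivial
      induction hz using IntermediateField.adjoin_induction with
      | mem x hx =>
        rcases hx with rfl | rfl | rfl
        · exact hDu
        · exact hX
        · exact hY
      | algebraMap x =>
        rw [IsScalarTower.algebraMap_apply k (MvPolynomial (Fin 2) k) L, DL_alg, MvPolynomial.algebraMap_eq,
          Jb_C_right, map_zero]
      | add x y _ _ hx hy => rw [(DL_isDer u).add, hx, hy, add_zero]
      | inv x _ hx =>
        by_cases h0 : x = 0
        · rw [h0, inv_zero, (DL_isDer u).zero]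
        · rw [der_inv (DL_isDer u) _ h0, hx]; simp
      | mul x y _ _ hx hy => rw [(DL_isDer u).mul, hx, hy]; ring
    have h1 := hall (algebraMap _ L v)
    rw [DL_alg, hJ, map_one] at h1
    exact one_ne_zero h1
  obtain ⟨f, hf1, hf2, hY0⟩ := exists_f u hu α β hdisc X Y hXY hX0
  obtain ⟨F, hF⟩ := f_mem u hu α β hdisc hmin X Y f hXY hf1 hf2 hX0
  have hF0 : F ≠ 0 := by
    rintro rfl
    rw [map_zero] at hF
    rw [hF, mul_zero] at hf1
    exact hX0 hf1
  -- the number `N`
  have hNex : ∃ N : ℕ, α.natDegree ≤ 4 * N ∧ β.natDegree ≤ 6 * N :=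
    ⟨α.natDegree + β.natDegree, by omega, by omega⟩
  set N := Nat.find hNex with hNd
  have hN1 := Nat.find_spec hNex
  have hN2 : ∀ m < N, ¬ (α.natDegree ≤ 4 * m ∧ β.natDegree ≤ 6 * m) := fun m hm => Nat.find_min hNex hm
  rw [← hNd] at hN1
  have hNmin : ¬ ((α = 0 ∨ α.natDegree + 4 ≤ 4 * N) ∧ (β = 0 ∨ β.natDegree + 6 ≤ 6 * N)) := by
    rintro ⟨h1, h2⟩
    rcases Nat.eq_zero_or_pos N with h0 | h0
    · rw [h0] at h1 h2
      have ha : α = 0 := by rcases h1 with h | h; exact h; omega
      have hb : β = 0 := by rcases h2 with h | h; exact h; omega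
      apply hdisc; rw [ha, hb]; ring
    · apply hN2 (N - 1) (by omega)
      constructor
      · rcases h1 with h | h
        · rw [h, Polynomial.natDegree_zero]; omega
        · omega
      · rcases h2 with h | h
        · rw [h, Polynomial.natDegree_zero]; omega
        · omega
  have hN : N = 1 := by
    have hlt : N < 2 := by
      have hord := ord_inf (0 : HahnSeries ℚ k) (Lb.zero _) u hu0
      have hpos : (0 : ℚ) < u.totalDegree := by exact_mod_cast (by omega : 0 < u.totalDegree)
      have huo : (VE L (-1) (0 : HahnSeries ℚ k)).o (algebraMap _ L u) = -(u.totalDegree : ℚ) := by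
        rw [VE_alg, hord]
      have h1 := lemInf (VE L (-1) (0 : HahnSeries ℚ k)) u (-1) u.totalDegree hpos hu0 huo (by
        intro z hz
        have := VE_jac (L := L) (-1) (0 : HahnSeries ℚ k) u z hz
        rwa [hord] at this) α β N hNmin X Y f hXY hf1 hf2 hX0
      have h2 := Vinf_le (L := L) F hF0
      rw [← hF] at h2
      by_contra hcon
      push Not at hcon
      have hc' : (2 : ℚ) ≤ N := by exact_mod_cast hcon
      have : 0 ≤ ((N : ℚ) - 2) * u.totalDegree := mul_nonneg (by linarith) hpos.le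
      linarith
    have hne : N ≠ 0 := by
      intro h0
      rw [h0] at hN1
      exact hX0 (const_case u α β (by omega) (by omega) hdisc X Y hXY)
    omega
  rw [hN] at hNmin
  -- inequality at `E`
  have hEineq : ∀ {c : k} {Y' : HahnSeries ℚ k} (e : Pool.Agent.H922R2.R.ED u c Y'), e.b < (EX e.r Y' F).order := by
    intro c Y' e
    have huo : (VE L e.r Y').o (algebraMap _ L u) = -e.a := by rw [VE_alg, e.lc_u.1]
    have h1 := lemInf (VE L e.r Y') u e.r e.a e.ha hu0 huo (by
      intro z hz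
      have := VE_jac (L := L) e.r Y' u z hz
      rwa [e.lc_u.1] at this) α β 1 hNmin X Y f hXY hf1 hf2 hX0
    rw [hF, VE_alg] at h1
    have := e.hab
    push_cast at h1
    linarith
  -- the generators
  have hT : ∀ t ∈ ({algebraMap (MvPolynomial (Fin 2) k) L u, X, Y} : Set L), t = X ∨ t = Y ∨ ∃ x, t = kap L hu x := by
    rintro t (rfl | rfl | rfl)
    · exact Or.inr (Or.inr ⟨algebraMap (Polynomial k) (KK k) Polynomial.X, by rw [kap_algebraMap, uP_X]⟩)
    · exact Or.inl rfl
    · exact Or.inr (Or.inl rfl)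
  have hkκ : ∀ c : k, ∃ x : KK k, kap L hu x = algebraMap k L c := fun c =>
    ⟨algebraMap (Polynomial k) (KK k) (Polynomial.C c), by
      rw [kap_algebraMap, uP_C, ← MvPolynomial.algebraMap_eq, ← IsScalarTower.algebraMap_apply]⟩
  have hXY' : Y ^ 2 = X ^ 3 + kap L hu (algebraMap (Polynomial k) (KK k) α) * X +
      kap L hu (algebraMap (Polynomial k) (KK k) β) := by
    rw [kap_algebraMap, kap_algebraMap]; exact hXY
  have hf2' : DL L u Y = (3 * X ^ 2 + kap L hu (algebraMap (Polynomial k) (KK k) α)) * f := by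
    rw [kap_algebraMap]; exact hf2
  have hf0 : f ≠ 0 := by rw [hF]; exact alg_ne hF0
  -- `F` has only vertical prime factors
  have hFv : VertF u F := by
    refine ⟨hF0, fun π hπ hπF => ?_⟩
    by_contra hcon
    push Not at hcon
    have hfo : (VP L hπ).o f = multiplicity π F := by rw [hF, VP_alg hπ hF0]
    have h1 : 1 ≤ multiplicity π F := by
      rw [← (fm hπ hF0).pow_dvd_iff_le_multiplicity, pow_one]; exact hπF
    have h1' : (1 : ℚ) ≤ multiplicity π F := by exact_mod_cast h1
    obtain ⟨n, hn⟩ := lemM_L (VP L hπ) (kap L hu) (DL_isDer u) (der_kap u hu)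
      (fun x hx => VP_kap u hπ hcon hu x hx) hkκ X Y f _ _ hXY' hf1 hf2' hY0 _ hT hgen
      ((VP L hπ).o f + 1) (by rw [hfo]; linarith) (by
        intro g hg hgo
        have := VP_E (L := L) u v hπ hJ hcon g hg hgo
        exact ⟨this.1, by rw [this.2]; ring⟩) (algebraMap _ L π) (alg_ne hπ.ne_zero)
    rw [VP_alg hπ hπ.ne_zero, hfo] at hn
    have h2 : multiplicity π π = 1 := multiplicity_self
    rw [h2] at hn
    have h3 : (1 : ℤ) = n * (multiplicity π F + 1) := by
      have : ((1 : ℤ) : ℚ) = ((n * (multiplicity π F + 1) : ℤ) : ℚ) := by push_cast; push_cast at hn; linarith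
      exact_mod_cast this
    have h4 : ((multiplicity π F : ℤ) + 1) ∣ 1 := Dvd.intro_left n h3.symm
    have h5 := Int.le_of_dvd one_pos h4
    omega
  rw [hF] at hf1 hf2
  exact ⟨F, hF0, hf1, hf2, hX0, hY0, fun e => hEineq e, hFv⟩

/-- the arithmetic consequence at `E` -/
theorem at_E (u v : MvPolynomial (Fin 2) k) (hJ : Jb u v = 1) (hm : MonT u)
    (α β : Polynomial k)
    (X Y : L) (hXY : Y ^ 2 = X ^ 3 + algebraMap _ L (uP u α) * X + algebraMap _ L (uP u β))
    (hgen : IntermediateField.adjoin k {algebraMap (MvPolynomial (Fin 2) k) L u, X, Y} = ⊤)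
    (F : MvPolynomial (Fin 2) k) (hF0 : F ≠ 0) (hf1 : DL L u X = 2 * Y * algebraMap _ L F)
    (hf2 : DL L u Y = (3 * X ^ 2 + algebraMap _ L (uP u α)) * algebraMap _ L F) (hX0 : DL L u X ≠ 0) (hY0 : Y ≠ 0)
    (hEineq : ∀ {c : k} {Y' : HahnSeries ℚ k} (e : Pool.Agent.H922R2.R.ED u c Y'), e.b < (EX e.r Y' F).order)
    (hFv : VertF u F) (π : MvPolynomial (Fin 2) k) (hπ : Prime π) (c : k) (hc : π ∣ u - C c) :
    ∃ w : MvPolynomial (Fin 2) k, Jb u w = 1 ∧ ¬ u.totalDegree ∣ w.totalDegree ∧
      (u.totalDegree ∣ 4 * w.totalDegree ∨ u.totalDegree ∣ 6 * w.totalDegree) := by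
  classical
  haveI : CharZero L := charZero_of_injective_algebraMap (algebraMap k L).injective
  have hu := uP_inj_of u v hJ
  have hn2 : 2 ≤ u.totalDegree := by rw [← hm.2]; exact hm.1.1
  have hu0 : u ≠ 0 := by rintro rfl; rw [totalDegree_zero] at hn2; omega
  obtain ⟨h, hh⟩ := vert_log u v hJ F hFv
  obtain ⟨Y', e, pl, hthu, hker, hpl⟩ := exists_E' u v π hπ c hc hJ hm.1
  have hp0 : e.p.eval 0 = 0 := by rw [← Polynomial.coeff_zero_eq_eval_zero]; exact e.hp0
  obtain ⟨hv1, hb1, hord⟩ := hpl 0 hp0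
  have hordF := hord F h hF0 hh
  set g := pl 0 with hg
  have hEX0 : EX e.r Y' F ≠ 0 := by
    rw [Ne, map_eq_zero_iff _ (EX_injective _ _)]; exact hF0
  have ha := e.ha
  have hb := e.hb
  set ff := (EX e.r Y' F).order with hff
  set φ := ff - e.b with hφd
  have hφ : 0 < φ := by have := hEineq e; rw [hφd]; linarith
  have hrat := ED_ratio hm hthu e
  have hn0 : (0 : ℚ) < u.totalDegree := by exact_mod_cast (by omega : 0 < u.totalDegree)
  refine ⟨e.v, e.hJ, ?_, ?_⟩
  · rintro ⟨t, ht⟩
    apply e.hnon t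
    apply mul_right_cancel₀ hn0.ne'
    rw [hrat, ht]; push_cast; ring
  -- divisibility of `φ`
  have hdiv : (∃ n : ℤ, 4 * φ = n * e.a) ∨ (∃ n : ℤ, 6 * φ = n * e.a) := by
    by_contra hcon
    push Not at hcon
    obtain ⟨h4, h6⟩ := hcon
    set P := (EX e.r Y' F).leadingCoeff with hP
    have hP0 : P ≠ 0 := HahnSeries.leadingCoeff_ne_zero.2 hEX0
    have hinj := IsFractionRing.injective (Polynomial k) (KK k)
    have hPK : algebraMap (Polynomial k) (KK k) P ≠ 0 := by
      rw [Ne, map_eq_zero_iff _ hinj]; exact hP0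
    have hFl : (gd L e hu0).LD ff (algebraMap (Polynomial k) (KK k) P) (algebraMap _ L F) := by
      refine ⟨by rw [EXL_alg]; exact (Lb_order _).hmap _, ?_⟩
      rw [EXL_alg, hmap_coeff, hP, HahnSeries.leadingCoeff_eq]
    have hcst : ∀ γ : Polynomial k, (gd L e hu0).D (algebraMap _ L (uP u γ)) = 0 := by
      intro γ
      change DL L u _ = 0
      rw [DL_alg, Jb_uP, map_zero]
    obtain ⟨s, hs⟩ := (gd L e hu0).main X Y (algebraMap _ L F) _ _ hXY (hcst α) (hcst β) hf1 hX0 ff φ _ hPK hFl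
      (by change ff = e.b + φ; rw [hφd]; ring) h4 h6
    change (e.a : KK k) * algebraMap (Polynomial k) (KK k) e.p * dK s +
      (φ : KK k) * dK (algebraMap (Polynomial k) (KK k) e.p) * s = -algebraMap (Polynomial k) (KK k) P at hs
    obtain ⟨N, M, hrel, hfd⟩ := IsFractionRing.exists_reduced_fraction (A := Polynomial k) (K := KK k) s
    have hM0 : (M : Polynomial k) ≠ 0 := nonZeroDivisors.ne_zero M.2
    have hMK : algebraMap (Polynomial k) (KK k) M ≠ 0 := by
      rw [Ne, map_eq_zero_iff _ hinj]; exact hM0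
    have hsN : s = algebraMap (Polynomial k) (KK k) N / algebraMap (Polynomial k) (KK k) M := by
      rw [eq_div_iff hMK, ← hfd]; exact IsLocalization.mk'_spec (KK k) N M
    apply no_s e.p P e.a φ ha hφ (fun n hn => h4 (4 * n) (by rw [hn]; push_cast; ring)) e.hd2
      (fun ρ hρ => ed_simple e ρ hρ) hP0 e.rts (fun ρ hρ => (e.mem_rts ρ).1 hρ) (e.natDegree_lc F hFv)
      N M hM0 hrel.isCoprime
    apply hinj
    rw [hsN, der_div dK_isDer _ _ hMK, dK_alg, dK_alg, dK_alg] at hs
    have eC : ∀ q : ℚ, algebraMap (Polynomial k) (KK k) (Polynomial.C (q : k)) = (q : KK k) := by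
      intro q
      rw [← Polynomial.algebraMap_eq, ← IsScalarTower.algebraMap_apply, map_ratCast]
    simp only [map_add, map_mul, map_sub, map_neg, map_pow, eC]
    field_simp at hs
    linear_combination hs
  -- the value at the good place
  obtain ⟨B, hB⟩ : ∃ B : ℤ, e.b = B * (e.a * ((EX e.r Y' F).leadingCoeff.rootMultiplicity 0 : ℕ) + φ) := by
    have hT : ∀ t ∈ ({algebraMap (MvPolynomial (Fin 2) k) L u, X, Y} : Set L), t = X ∨ t = Y ∨ ∃ x, t = kap L hu x := by
      rintro t (rfl | rfl | rfl)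
      · exact Or.inr (Or.inr ⟨algebraMap (Polynomial k) (KK k) Polynomial.X, by rw [kap_algebraMap, uP_X]⟩)
      · exact Or.inl rfl
      · exact Or.inr (Or.inl rfl)
    have hkκ : ∀ c : k, ∃ x : KK k, kap L hu x = algebraMap k L c := fun c =>
      ⟨algebraMap (Polynomial k) (KK k) (Polynomial.C c), by
        rw [kap_algebraMap, uP_C, ← MvPolynomial.algebraMap_eq, ← IsScalarTower.algebraMap_apply]⟩
    have hXY' : Y ^ 2 = X ^ 3 + kap L hu (algebraMap (Polynomial k) (KK k) α) * X +
        kap L hu (algebraMap (Polynomial k) (KK k) β) := by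
      rw [kap_algebraMap, kap_algebraMap]; exact hXY
    have hf2' : DL L u Y = (3 * X ^ 2 + kap L hu (algebraMap (Polynomial k) (KK k) α)) * algebraMap _ L F := by
      rw [kap_algebraMap]; exact hf2
    have hfo : (VG L g).o (algebraMap _ L F) = (g.ι F).order := by rw [VG_alg]
    have hcpos : 0 < (VG L g).o (algebraMap _ L F) - e.b := by
      rw [hfo, hordF]
      have : (0 : ℚ) ≤ e.a * ((EX e.r Y' F).leadingCoeff.rootMultiplicity 0 : ℕ) := by positivity
      linarith
    obtain ⟨n, hn⟩ := lemM_L (VG L g) (kap L hu) (DL_isDer u) (der_kap u hu)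
      (fun x hx => VG_kap g hu x hx) hkκ X Y (algebraMap _ L F) _ _ hXY' hf1 hf2' hY0 _ hT hgen
      ((VG L g).o (algebraMap _ L F) - e.b) hcpos (by
        intro z hz hzo
        have := VG_E (L := L) g z hz hzo
        exact ⟨this.1, by rw [this.2, hb1]; ring⟩) (algebraMap _ L g.v) (alg_ne (by
          intro h0
          have := g.hJ
          rw [h0] at this
          simp [Jb] at this))
    have hvo : (VG L g).o (algebraMap _ L g.v) = -e.b := by
      rw [VG_alg, ← hb1]
      exact order_eq_of g.hv (by rw [g.hvc]; exact Polynomial.C_ne_zero.2 g.hβ)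
    rw [hvo, hfo, hordF] at hn
    refine ⟨-n, ?_⟩
    push_cast
    rw [hφd]
    linarith
  set μ := (EX e.r Y' F).leadingCoeff.rootMultiplicity 0 with hμ
  have hfin : ∀ K : ℕ, (∃ n : ℤ, (K : ℚ) * φ = n * e.a) → u.totalDegree ∣ K * e.v.totalDegree := by
    rintro K ⟨n, hn⟩
    have h1 : (K : ℚ) * e.b = (B * (K * μ + n) : ℤ) * e.a := by
      rw [hB]
      push_cast
      linear_combination (B : ℚ) * hn
    have h2 : (K : ℚ) * e.v.totalDegree = (B * (K * μ + n) : ℤ) * u.totalDegree := by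
      apply mul_left_cancel₀ ha.ne'
      linear_combination (-(K : ℚ)) * hrat + (u.totalDegree : ℚ) * h1
    have h3 : ((K * e.v.totalDegree : ℕ) : ℤ) = u.totalDegree * (B * (K * μ + n)) := by
      have : (((K * e.v.totalDegree : ℕ) : ℤ) : ℚ) = ((u.totalDegree * (B * (K * μ + n)) : ℤ) : ℚ) := by
        push_cast
        push_cast at h2
        linarith
      exact_mod_cast this
    have h4 : ((u.totalDegree : ℕ) : ℤ) ∣ ((K * e.v.totalDegree : ℕ) : ℤ) := ⟨_, h3⟩
    exact_mod_cast h4
  rcases hdiv with h4 | h6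
  · exact Or.inl (hfin 4 (by exact_mod_cast h4))
  · exact Or.inr (hfin 6 (by exact_mod_cast h6))

/-- vertical polynomials, when all fibres are irreducible -/
theorem vert_irr (u : MvPolynomial (Fin 2) k) (hirr : ∀ c : k, Irreducible (u - C c)) (F : MvPolynomial (Fin 2) k)
    (hF : VertF u F) : ∃ w : Polynomial k, w ≠ 0 ∧ F = uP u w := by
  classical
  induction F using UniqueFactorizationMonoid.induction_on_prime with
  | h₁ => exact absurd rfl hF.1
  | h₂ x hx =>
    obtain ⟨t, ht, hte⟩ := MvPolynomial.isUnit_iff_eq_C_of_isReduced.1 hx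
    exact ⟨Polynomial.C t, Polynomial.C_ne_zero.2 ht.ne_zero, by rw [uP_C, hte]⟩
  | h₃ a p ha hp ih =>
    obtain ⟨c, hc⟩ := hF.2 p hp (dvd_mul_right _ _)
    have hva : VertF u a := ⟨ha, fun π hπ hπa => hF.2 π hπ (hπa.mul_left _)⟩
    obtain ⟨w, hw, hwe⟩ := ih hva
    obtain ⟨t, ht⟩ := hc
    have htu : IsUnit t := ((hirr c).isUnit_or_isUnit ht).resolve_left hp.not_isUnit
    obtain ⟨s, hs, hse⟩ := MvPolynomial.isUnit_iff_eq_C_of_isReduced.1 htu
    have hs0 := hs.ne_zero
    refine ⟨Polynomial.C s⁻¹ * (Polynomial.X - Polynomial.C c) * w, ?_, ?_⟩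
    · exact mul_ne_zero (mul_ne_zero (Polynomial.C_ne_zero.2 (inv_ne_zero hs0)) (Polynomial.X_sub_C_ne_zero c)) hw
    · rw [map_mul, map_mul, map_sub, uP_C, uP_X, uP_C, ← hwe, ht, hse]
      have : (C s⁻¹ : MvPolynomial (Fin 2) k) * C s = 1 := by rw [← C_mul, inv_mul_cancel₀ hs0, C_1]
      linear_combination (-(p * a)) * this

/-- elliptic components do not exist if the degrees are not in a bad ratio, or if all fibres are irreducible -/
theorem main_EL2 (u v : MvPolynomial (Fin 2) k) (hJ : Jb u v = 1) (hm : MonT u)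
    (H : (∀ h : Polynomial k, u.totalDegree < (v - uP u h).totalDegree →
        (u.totalDegree ∣ 4 * (v - uP u h).totalDegree ∨ u.totalDegree ∣ 6 * (v - uP u h).totalDegree) →
        u.totalDegree ∣ (v - uP u h).totalDegree) ∨
      (∀ c : k, Irreducible (u - C c)))
    (α β : Polynomial k) (hdisc : 4 * α ^ 3 + 27 * β ^ 2 ≠ 0)
    (hmin : ∀ c : k, ¬ ((Polynomial.X - Polynomial.C c) ^ 4 ∣ α ∧ (Polynomial.X - Polynomial.C c) ^ 6 ∣ β))
    (X Y : L) (hXY : Y ^ 2 = X ^ 3 + algebraMap _ L (uP u α) * X + algebraMap _ L (uP u β))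
    (hgen : IntermediateField.adjoin k {algebraMap (MvPolynomial (Fin 2) k) L u, X, Y} = ⊤) : False := by
  classical
  obtain ⟨F, hF0, hf1, hf2, hX0, hY0, hEineq, hFv⟩ := prepEL u v hJ hm α β hdisc hmin X Y hXY hgen
  have hn2 : 2 ≤ u.totalDegree := by rw [← hm.2]; exact hm.1.1
  have hu0 : u ≠ 0 := by rintro rfl; rw [totalDegree_zero] at hn2; omega
  -- some component of a fibre
  have hnu : ¬ IsUnit (u - C (0 : k)) := by
    rw [map_zero, sub_zero]
    intro h1
    obtain ⟨t', _, h2⟩ := MvPolynomial.isUnit_iff_eq_C_of_isReduced.1 h1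
    rw [h2, totalDegree_C] at hn2
    omega
  have hu1 : u - C (0 : k) ≠ 0 := by rw [map_zero, sub_zero]; exact hu0
  obtain ⟨π, hπi, hπd⟩ := WfDvdMonoid.exists_irreducible_factor hnu hu1
  obtain ⟨Y', e, pl, -, -, -⟩ := exists_E' u v π hπi.prime 0 hπd hJ hm.1
  rcases H with H | hirr
  · obtain ⟨w, hw1, hw2, hw3⟩ := at_E u v hJ hm α β X Y hXY hgen F hF0 hf1 hf2 hX0 hY0 (fun e => hEineq e) hFv π
      hπi.prime 0 hπd
    rcases Nat.lt_or_ge u.totalDegree w.totalDegree with hlt | hle
    · obtain ⟨s, hs⟩ := (pl 0).ker (v - w) (by rw [Jb_sub, hw1, hJ, sub_self])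
      have hwe : v - uP u s = w := by rw [← hs]; ring
      apply hw2
      rw [← hwe] at hlt hw3 ⊢
      exact H s hlt hw3
    · exact main_EL u w hw1 hm hle α β hdisc hmin X Y hXY hgen
  · obtain ⟨w, hw, rfl⟩ := vert_irr u hirr F hFv
    have h1 := hEineq e
    rw [(e.lc_uP w hw).1] at h1
    have ha := e.ha
    have hb := e.hb
    have h2 : (0 : ℚ) ≤ w.natDegree * e.a := by positivity
    linarith

end

end Pool.Agent.H938R2.EL2
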