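import Mathlib
import Pool.Agent.H938R2.EL2.M

set_option autoImplicit false
set_option linter.unusedSectionVars false
set_option linter.style.haveILetI false

/-!
Elliptic generic fibres: from an algebraically closed field with `u` monic to any field.
-/

open MvPolynomial

namespace Pool.Agent.H938R2.EL2

open Pool.Agent.H922R2 (IsDer GA sw elemX elemX_X0 elemX_X1 jac SS fF uy DJ_apply det_jac)
open Pool.Agent.H922R2.R
open Pool.Agent.H922R2.EL

/-- the degree condition: whenever `m = deg (F 1 - h (F 0))` exceeds `n = deg (F 0)` and `n` divides `4 m` or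
`6 m`, then `n` divides `m` -/
def UU {k : Type*} [Field k] (F : Fin 2 → MvPolynomial (Fin 2) k) : Prop :=
  ∀ h : Polynomial k, (F 0).totalDegree < (F 1 - Polynomial.aeval (F 0) h).totalDegree →
    ((F 0).totalDegree ∣ 4 * (F 1 - Polynomial.aeval (F 0) h).totalDegree ∨
      (F 0).totalDegree ∣ 6 * (F 1 - Polynomial.aeval (F 0) h).totalDegree) →
    (F 0).totalDegree ∣ (F 1 - Polynomial.aeval (F 0) h).totalDegree

theorem td_mE {k E : Type*} [Field k] [Field E] [Algebra k E] (f : MvPolynomial (Fin 2) k) :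
    (Pool.Agent.H922R2.mE k E (Fin 2) f).totalDegree = f.totalDegree := by
  rw [Pool.Agent.H922R2.mE, MvPolynomial.totalDegree, MvPolynomial.totalDegree,
    MvPolynomial.support_map_of_injective _ (algebraMap k E).injective]

/-- the degree condition is invariant under field extension -/
theorem UU_base {k E : Type*} [Field k] [Field E] [CharZero E] [IsAlgClosed E] [Algebra k E]
    (F : Fin 2 → MvPolynomial (Fin 2) k) (hn : 1 ≤ (F 0).totalDegree) (H : UU F) :
    UU (fun i => Pool.Agent.H922R2.mE k E (Fin 2) (F i)) := by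
  classical
  intro h' hlt hdiv
  simp only at hlt hdiv ⊢
  rw [td_mE] at hlt hdiv ⊢
  set w' := Pool.Agent.H922R2.mE k E (Fin 2) (F 1) -
    Polynomial.aeval (Pool.Agent.H922R2.mE k E (Fin 2) (F 0)) h' with hw'
  -- a projection
  obtain ⟨l, hl⟩ := (Algebra.linearMap k E).exists_leftInverse_of_injective
    (LinearMap.ker_eq_bot.2 (algebraMap k E).injective)
  have hl1 : ∀ c : k, l (algebraMap k E c) = c := fun c => LinearMap.congr_fun hl c
  have hlm : ∀ (x : E) (c : k), l (x * algebraMap k E c) = l x * c := by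
    intro x c
    rw [mul_comm x, ← Algebra.smul_def, map_smul, smul_eq_mul, mul_comm]
  set h : Polynomial k := ∑ i ∈ Finset.range (h'.natDegree + 1), Polynomial.monomial i (l (h'.coeff i)) with hh
  set w := F 1 - Polynomial.aeval (F 0) h with hw
  have hcoef : ∀ m, coeff m w = l (coeff m w') := by
    intro m
    have e1 : Polynomial.aeval (F 0) h = ∑ i ∈ Finset.range (h'.natDegree + 1), C (l (h'.coeff i)) * (F 0) ^ i := by
      rw [hh, map_sum]
      apply Finset.sum_congr rfl
      intro i _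
      rw [Polynomial.aeval_monomial, MvPolynomial.algebraMap_eq]
    have e2 : Polynomial.aeval (Pool.Agent.H922R2.mE k E (Fin 2) (F 0)) h' =
        ∑ i ∈ Finset.range (h'.natDegree + 1), C (h'.coeff i) * Pool.Agent.H922R2.mE k E (Fin 2) ((F 0) ^ i) := by
      rw [Polynomial.aeval_eq_sum_range]
      apply Finset.sum_congr rfl
      intro i _
      rw [MvPolynomial.smul_eq_C_mul, map_pow]
    rw [hw, hw', e1, e2, coeff_sub, coeff_sub, map_sub, MvPolynomial.coeff_sum, MvPolynomial.coeff_sum, map_sum]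
    congr 1
    · rw [Pool.Agent.H922R2.mE, coeff_map, hl1]
    · apply Finset.sum_congr rfl
      intro i _
      rw [coeff_C_mul, coeff_C_mul, Pool.Agent.H922R2.mE, coeff_map, hlm]
  have hle : w.totalDegree ≤ w'.totalDegree := by
    apply Finset.sup_le
    intro m hm
    rw [mem_support_iff, hcoef] at hm
    apply MvPolynomial.le_totalDegree
    rw [mem_support_iff]
    intro h0
    rw [h0, map_zero] at hm
    exact hm rfl
  by_cases heq : w.totalDegree = w'.totalDegree
  · rw [← heq] at hlt hdiv ⊢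
    exact H h hlt hdiv
  · -- then `w' - w` is a polynomial in `u`
    have hlt' : w.totalDegree < w'.totalDegree := lt_of_le_of_ne hle heq
    have e3 : w' = Pool.Agent.H922R2.mE k E (Fin 2) w +
        Polynomial.aeval (Pool.Agent.H922R2.mE k E (Fin 2) (F 0)) (h.map (algebraMap k E) - h') := by
      have e : Pool.Agent.H922R2.mE k E (Fin 2) (Polynomial.aeval (F 0) h) =
          Polynomial.aeval (Pool.Agent.H922R2.mE k E (Fin 2) (F 0)) (h.map (algebraMap k E)) := by
        rw [Pool.Agent.H922R2.mE, Polynomial.aeval_def, Polynomial.hom_eval₂, Polynomial.aeval_def,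
          Polynomial.eval₂_map]
        congr 1
        ext c
        simp [MvPolynomial.algebraMap_eq]
      rw [hw, map_sub, map_sub, e, hw']; ring
    have h5 : (Polynomial.aeval (Pool.Agent.H922R2.mE k E (Fin 2) (F 0)) (h.map (algebraMap k E) - h')).totalDegree =
        w'.totalDegree := by
      have e6 : Polynomial.aeval (Pool.Agent.H922R2.mE k E (Fin 2) (F 0)) (h.map (algebraMap k E) - h') =
          w' + -Pool.Agent.H922R2.mE k E (Fin 2) w := by
        rw [e3]; ring
      rw [e6]
      apply totalDegree_add_eq_left_of_totalDegree_lt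
      rw [totalDegree_neg, td_mE]
      exact hlt'
    rcases Nat.lt_or_ge (F 0).totalDegree 2 with h6 | h6
    · rw [show (F 0).totalDegree = 1 by omega]; exact one_dvd _
    · have hs0 : h.map (algebraMap k E) - h' ≠ 0 := by
        intro h0
        rw [h0, map_zero, totalDegree_zero] at h5
        omega
      have h7 := (td_uP (Pool.Agent.H922R2.mE k E (Fin 2) (F 0)) (by rw [td_mE]; exact h6) _ hs0).2
      have h8 : uP (Pool.Agent.H922R2.mE k E (Fin 2) (F 0)) (h.map (algebraMap k E) - h') =
          Polynomial.aeval (Pool.Agent.H922R2.mE k E (Fin 2) (F 0)) (h.map (algebraMap k E) - h') := rfl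
      rw [h8, h5, td_mE] at h7
      rw [h7]
      exact dvd_mul_left _ _

section closed

variable {k : Type*} [Field k] [CharZero k] [IsAlgClosed k]

/-- a linear polynomial belongs to a pair of linear polynomials -/
theorem linear_pair (F : Fin 2 → MvPolynomial (Fin 2) k) (hJ : IsUnit (Matrix.det (jac F)))
    (hn : ¬ 2 ≤ (F 0).totalDegree) : ∃ w : MvPolynomial (Fin 2) k,
      IsUnit (Matrix.det (jac ![F 0, w])) ∧ w.totalDegree ≤ (F 0).totalDegree := by
  set u := F 0 with hu
  have hJ' : IsUnit (pderiv 0 u * pderiv 1 (F 1) - pderiv 1 u * pderiv 0 (F 1)) := by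
    rwa [det_jac, DJ_apply] at hJ
  have hn1 : u.totalDegree = 1 := by
    have h0 : u.totalDegree ≠ 0 := by
      intro h0
      have h4 := MvPolynomial.totalDegree_eq_zero_iff_eq_C.1 h0
      rw [h4] at hJ'
      simp at hJ'
    omega
  have hcst : ∀ i, ∃ c, pderiv i u = C c := by
    intro i
    by_cases h : pderiv i u = 0
    · exact ⟨0, by rw [h, map_zero]⟩
    · have h1 := Pool.Agent.H922R2.totalDegree_pderiv_lt u i h
      exact ⟨_, MvPolynomial.totalDegree_eq_zero_iff_eq_C.1 (by omega)⟩
  obtain ⟨c0, h0⟩ := hcst 0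
  obtain ⟨c1, h1⟩ := hcst 1
  by_cases hc : c0 = 0
  · have hc1 : c1 ≠ 0 := by
      rintro rfl
      rw [h0, h1, hc] at hJ'
      simp at hJ'
    refine ⟨X 0, ?_, by rw [hn1, totalDegree_X]⟩
    rw [det_jac, DJ_apply]
    simp only [Matrix.cons_val_zero, Matrix.cons_val_one]
    rw [h0, h1, hc, map_zero, zero_mul, zero_sub, pderiv_X_self, mul_one, ← map_neg]
    exact (isUnit_iff_ne_zero.2 (neg_ne_zero.2 hc1)).map C
  · refine ⟨X 1, ?_, by rw [hn1, totalDegree_X]⟩
    rw [det_jac, DJ_apply]
    simp only [Matrix.cons_val_zero, Matrix.cons_val_one]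
    rw [h0, h1, pderiv_X_self, pderiv_X_of_ne (by decide : (0 : Fin 2) ≠ 1).symm, mul_zero, mul_one, sub_zero]
    exact (isUnit_iff_ne_zero.2 hc).map C

/-- no elliptic component in the three situations, over an algebraically closed field -/
theorem EL2_false {L : Type*} [Field L] [Algebra (MvPolynomial (Fin 2) k) L]
    [IsFractionRing (MvPolynomial (Fin 2) k) L] [Algebra k L] [IsScalarTower k (MvPolynomial (Fin 2) k) L]
    (F : Fin 2 → MvPolynomial (Fin 2) k) (hJ : IsUnit (Matrix.det (jac F)))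
    (H : UU F ∨
      (∀ c : k, Irreducible (F 0 - C c))) (a b X Y : L)
    (ha : a ∈ IntermediateField.adjoin k {algebraMap (MvPolynomial (Fin 2) k) L (F 0)})
    (hb : b ∈ IntermediateField.adjoin k {algebraMap (MvPolynomial (Fin 2) k) L (F 0)})
    (hdisc : 4 * a ^ 3 + 27 * b ^ 2 ≠ 0) (hXY : Y ^ 2 = X ^ 3 + a * X + b)
    (hgen : IntermediateField.adjoin k {algebraMap (MvPolynomial (Fin 2) k) L (F 0), X, Y} = ⊤) : False := by
  by_cases hn : 2 ≤ (F 0).totalDegree
  swap
  · obtain ⟨w, hw1, hw2⟩ := linear_pair F hJ hn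
    exact EL_false ![F 0, w] hw1 hw2 a b X Y ha hb hdisc hXY hgen
  have hF0 : F 0 ≠ 0 := by
    intro ha
    rw [det_jac, DJ_apply, ha] at hJ
    simp at hJ
  obtain ⟨l, hl1, hl2⟩ := exists_monT (F 0) hF0
  set θ : GA k := shl l with hθ
  have hJ' := Pool.Agent.H922R2.jac_comp θ F hJ
  obtain ⟨δ, hδ, hδe⟩ := MvPolynomial.isUnit_iff_eq_C_of_isReduced.1 (by rw [det_jac] at hJ'; exact hJ')
  have hδ0 : δ ≠ 0 := hδ.ne_zero
  set u := θ (F 0) with hu
  set v := C δ⁻¹ * θ (F 1) with hv
  have hJb : Jb u v = 1 := by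
    have h1 : Jb (θ (F 0)) (θ (F 1)) = C δ := by
      rw [← hδe, DJ_apply]; rfl
    rw [hu, hv, Jb_mul, h1, Jb_C_right, mul_zero, add_zero, ← C_mul, inv_mul_cancel₀ hδ0, C_1]
  have hut : u.totalDegree = (F 0).totalDegree := shl_td l _
  have H' : (∀ h : Polynomial k, u.totalDegree < (v - uP u h).totalDegree →
        (u.totalDegree ∣ 4 * (v - uP u h).totalDegree ∨ u.totalDegree ∣ 6 * (v - uP u h).totalDegree) →
        u.totalDegree ∣ (v - uP u h).totalDegree) ∨
      (∀ c : k, Irreducible (u - C c)) := by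
    rcases H with H | H
    · left
      intro h'
      obtain ⟨h, rfl⟩ : ∃ h, h' = Polynomial.C δ⁻¹ * h := ⟨Polynomial.C δ * h', by
        rw [← mul_assoc, ← Polynomial.C_mul, inv_mul_cancel₀ hδ0, Polynomial.C_1, one_mul]⟩
      have e1 : v - uP u (Polynomial.C δ⁻¹ * h) = C δ⁻¹ * θ (F 1 - Polynomial.aeval (F 0) h) := by
        have e2 : θ (Polynomial.aeval (F 0) h) = uP u h := by
          rw [uP, Polynomial.coe_eval₂RingHom, hu]
          have := Polynomial.aeval_algHom_apply (θ : MvPolynomial (Fin 2) k →ₐ[k] MvPolynomial (Fin 2) k) (F 0) h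
          rw [AlgEquiv.coe_toAlgHom] at this
          rw [← this]
          rfl
        rw [map_sub, e2, map_mul, uP_C, hv]; ring
      have e3 : (C δ⁻¹ * θ (F 1 - Polynomial.aeval (F 0) h)).totalDegree =
          (F 1 - Polynomial.aeval (F 0) h).totalDegree := by
        have e4 : (θ (F 1 - Polynomial.aeval (F 0) h)).totalDegree = (F 1 - Polynomial.aeval (F 0) h).totalDegree :=
          shl_td l _
        rw [← e4]
        by_cases h0 : θ (F 1 - Polynomial.aeval (F 0) h) = 0
        · rw [h0, mul_zero]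
        · rw [totalDegree_mul_of_isDomain (by rw [Ne, C_eq_zero]; exact inv_ne_zero hδ0) h0, totalDegree_C, zero_add]
      rw [e1, e3, hut]
      exact H h
    · right
      intro c
      have e : u - C c = θ (F 0 - C c) := by
        rw [map_sub, hu]
        congr 1
        exact (θ.commutes c).symm
      rw [e]
      exact (MulEquiv.irreducible_iff θ).2 (H c)
  -- transport
  obtain ⟨φ, hφa, hφm, hφt⟩ := transport_gen (L₁ := L) (L₂ := L)
    ((θ : MvPolynomial (Fin 2) k ≃ₐ[k] _) : MvPolynomial (Fin 2) k →+* _) θ.injective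
    (fun a => ⟨a, θ.commutes a⟩) (fun i => ⟨θ.symm (MvPolynomial.X i), θ.apply_symm_apply _⟩)
  have hφu : φ (algebraMap _ L (F 0)) = algebraMap _ L u := hφa (F 0)
  have hgen' := hφt _ hgen
  have ha' := hφm _ _ ha
  have hb' := hφm _ _ hb
  rw [Set.image_singleton, hφu] at ha' hb'
  rw [Set.image_insert_eq, Set.image_insert_eq, Set.image_singleton, hφu] at hgen'
  have hXY' : (φ Y) ^ 2 = (φ X) ^ 3 + φ a * φ X + φ b := by
    rw [← map_pow, hXY, map_add, map_add, map_mul, map_pow]
  have hdisc' : 4 * (φ a) ^ 3 + 27 * (φ b) ^ 2 ≠ 0 := by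
    have h1 : φ (4 * a ^ 3 + 27 * b ^ 2) ≠ 0 := by
      rw [Ne, map_eq_zero]; exact hdisc
    rw [map_add, map_mul, map_mul, map_pow, map_pow, map_ofNat, map_ofNat] at h1
    exact h1
  have huinj := uP_inj_of u v hJb
  obtain ⟨α, β, X1, Y1, h1, h2, h3⟩ := exists_int u huinj _ _ _ _ ha' hb' hdisc' hXY' hgen'
  obtain ⟨α', β', X2, Y2, g1, g2, g3, g4⟩ := exists_min u huinj _ α β X1 Y1 le_rfl h1 h2 h3
  exact main_EL2 u v hJb ⟨⟨by rw [hl1, hut]; exact hn, hl2⟩, hl1⟩ H' α' β' g1 g2 X2 Y2 g3 g4

/-- Weierstrass cubics, over an algebraically closed field -/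
theorem EL2_closed (F : Fin 2 → MvPolynomial (Fin 2) k) (hJ : IsUnit (Matrix.det (jac F)))
    (H : UU F ∨
      (∀ c : k, Irreducible (F 0 - C c)))
    (a b X Y : FractionRing (MvPolynomial (Fin 2) k))
    (ha : a ∈ IntermediateField.adjoin k {algebraMap (MvPolynomial (Fin 2) k) (FractionRing (MvPolynomial (Fin 2) k)) (F 0)})
    (hb : b ∈ IntermediateField.adjoin k {algebraMap (MvPolynomial (Fin 2) k) (FractionRing (MvPolynomial (Fin 2) k)) (F 0)})
    (hXY : Y ^ 2 = X ^ 3 + a * X + b)
    (hgen : IntermediateField.adjoin k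
      {algebraMap (MvPolynomial (Fin 2) k) (FractionRing (MvPolynomial (Fin 2) k)) (F 0), X, Y} = ⊤) :
    4 * a ^ 3 + 27 * b ^ 2 = 0 ∧ SS F = ⊤ := by
  by_cases hdisc : 4 * a ^ 3 + 27 * b ^ 2 = 0
  · refine ⟨hdisc, ?_⟩
    obtain ⟨T, hT⟩ := sing_gen (F 0) a b X Y ha hb hdisc hXY hgen
    exact R_closed F hJ T hT
  · exact (EL2_false F hJ H a b X Y ha hb hdisc hXY hgen).elim

end closed

section any

variable {k : Type*} [Field k] [CharZero k] {E : Type*} [Field E] [Algebra k E]

/-- Weierstrass cubics over any field -/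
theorem EL2_any (F : Fin 2 → MvPolynomial (Fin 2) k) (hJ : IsUnit (Matrix.det (jac F)))
    (H : UU F ∨
      (∀ c : AlgebraicClosure E, Irreducible
        (map (algebraMap E (AlgebraicClosure E)) (map (algebraMap k E) (F 0)) - C c)))
    (a b X Y : FractionRing (MvPolynomial (Fin 2) E))
    (ha : a ∈ IntermediateField.adjoin E {algebraMap (MvPolynomial (Fin 2) E)
      (FractionRing (MvPolynomial (Fin 2) E)) (map (algebraMap k E) (F 0))})
    (hb : b ∈ IntermediateField.adjoin E {algebraMap (MvPolynomial (Fin 2) E)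
      (FractionRing (MvPolynomial (Fin 2) E)) (map (algebraMap k E) (F 0))})
    (hXY : Y ^ 2 = X ^ 3 + a * X + b)
    (hgen : IntermediateField.adjoin E
      {algebraMap (MvPolynomial (Fin 2) E) (FractionRing (MvPolynomial (Fin 2) E)) (map (algebraMap k E) (F 0)), X, Y} = ⊤) :
    4 * a ^ 3 + 27 * b ^ 2 = 0 ∧ SS F = ⊤ := by
  haveI : CharZero E := charZero_of_injective_algebraMap (algebraMap k E).injective
  haveI : CharZero (AlgebraicClosure E) := charZero_of_injective_algebraMap
    (algebraMap E (AlgebraicClosure E)).injective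
  letI : Algebra k (AlgebraicClosure E) := ((algebraMap E (AlgebraicClosure E)).comp (algebraMap k E)).toAlgebra
  obtain ⟨φ, hφa, hφm, hφt⟩ := transport_gen (L₁ := FractionRing (MvPolynomial (Fin 2) E))
    (L₂ := FractionRing (MvPolynomial (Fin 2) (AlgebraicClosure E)))
    (map (algebraMap E (AlgebraicClosure E))) (MvPolynomial.map_injective _ (algebraMap E (AlgebraicClosure E)).injective)
    (fun a => ⟨algebraMap E (AlgebraicClosure E) a, map_C _ _⟩) (fun i => ⟨MvPolynomial.X i, map_X _ _⟩)
  have he : map (algebraMap E (AlgebraicClosure E)) (map (algebraMap k E) (F 0)) =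
      Pool.Agent.H922R2.mE k (AlgebraicClosure E) (Fin 2) (F 0) := by
    rw [Pool.Agent.H922R2.mE, MvPolynomial.map_map]
    rfl
  have hφu := hφa (map (algebraMap k E) (F 0))
  rw [he] at hφu
  have hgen' := hφt _ hgen
  have ha' := hφm _ _ ha
  have hb' := hφm _ _ hb
  rw [Set.image_singleton, hφu] at ha' hb'
  rw [Set.image_insert_eq, Set.image_insert_eq, Set.image_singleton, hφu] at hgen'
  have hXY' : (φ Y) ^ 2 = (φ X) ^ 3 + φ a * φ X + φ b := by
    rw [← map_pow, hXY, map_add, map_add, map_mul, map_pow]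
  have htd : ∀ f : MvPolynomial (Fin 2) k,
      (Pool.Agent.H922R2.mE k (AlgebraicClosure E) (Fin 2) f).totalDegree = f.totalDegree := by
    intro f
    rw [Pool.Agent.H922R2.mE, MvPolynomial.totalDegree, MvPolynomial.totalDegree,
      MvPolynomial.support_map_of_injective _ (algebraMap k (AlgebraicClosure E)).injective]
  have hmain := EL2_closed (fun i => Pool.Agent.H922R2.mE k (AlgebraicClosure E) (Fin 2) (F i))
    (Pool.Agent.H922R2.jac_mE (E := AlgebraicClosure E) F hJ) (by
      rcases H with H | H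
      · left
        apply UU_base F _ H
        by_contra h0
        have h4 := MvPolynomial.totalDegree_eq_zero_iff_eq_C.1 (by omega : (F 0).totalDegree = 0)
        rw [det_jac, DJ_apply, h4] at hJ
        simp at hJ
      · right
        intro c
        rw [← he]
        exact H c)
    (φ a) (φ b) (φ X) (φ Y) ha' hb' hXY' hgen'
  refine ⟨?_, Pool.Agent.H922R2.SS_descent (E := AlgebraicClosure E) F hmain.2⟩
  have h1 : φ (4 * a ^ 3 + 27 * b ^ 2) = 0 := by
    rw [map_add, map_mul, map_mul, map_pow, map_pow, map_ofNat, map_ofNat]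
    exact hmain.1
  rwa [map_eq_zero] at h1

end any

end Pool.Agent.H938R2.EL2
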